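import Pool.Agent.TH193.RS.Num2

/-!
The quantitative theorem.
-/

set_option autoImplicit false

namespace Pool.Agent.TH193.RS

open Finset

theorem log_four_bounds : (1.386 : ℝ) < Real.log 4 ∧ Real.log 4 < 1.387 := by
  have h : Real.log 4 = 2 * Real.log 2 := by
    rw [show (4 : ℝ) = 2 ^ 2 by norm_num, Real.log_pow]; norm_num
  have h1 := Real.log_two_gt_d9
  have h2 := Real.log_two_lt_d9
  rw [h]
  constructor <;> linarith

/-- the product of the primes of a set of primes up to `y` -/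
theorem prod_primes_le (T : Finset ℕ) (y : ℕ) (hT : ∀ ℓ ∈ T, ℓ.Prime ∧ ℓ ≤ y) :
    ∏ ℓ ∈ T, ℓ ≤ 4 ^ y := by
  have h1 : ∏ ℓ ∈ T, ℓ ≤ primorial y := by
    unfold primorial
    apply Finset.prod_le_prod_of_subset_of_one_le'
    · intro ℓ hℓ
      rw [mem_filter, mem_range]
      exact ⟨by have := (hT ℓ hℓ).2; omega, (hT ℓ hℓ).1⟩
    · intro ℓ hℓ _
      rw [mem_filter] at hℓ
      exact hℓ.2.one_lt.le
  exact h1.trans (primorial_le_four_pow y)

open Classical in
theorem bad_count2 (m : ℕ) (hm : m.Prime) : ∃ c : ℝ, 0 < c ∧ ∃ N₀ : ℕ, ∀ N : ℕ, N₀ ≤ N →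
    ∀ k K : ℕ, (k : ℝ) ≤ Real.log N ^ (1 / 10 : ℝ) → (K : ℝ) ≤ Real.log N ^ (1 / 10 : ℝ) → m ≤ K →
    ∀ N' : Fin k → ℕ, (∀ i, N ≤ N' i) →
      (((Fintype.piFinset (fun i => PR (N' i))).filter (fun p => ¬ Good K m p)).card : ℝ) ≤
        Real.exp (-c * (Real.log N / Real.log (Real.log N))) *
          ∏ i, (Nat.primeCounting (N' i) : ℝ) := by
  have hQ : 1 ≤ m ^ 3 := Nat.one_le_pow _ _ hm.pos
  obtain ⟨κ, hκ, Y₁, hY₁⟩ := sp (m ^ 3) hQ
  obtain ⟨C₁, hC₁1, hC₁⟩ := tuple_count2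
  obtain ⟨c₁, hc₁0, hc₁4, x₀, hx₀, hnum⟩ := numeric2 m C₁ κ hm.one_lt.le hC₁1 hκ
  refine ⟨c₁, hc₁0, ⌈Real.exp (max x₀ (4 * Y₁))⌉₊ + 16, ?_⟩
  intro N hN k K hk hK hmK N' hN'
  have hN16 : 16 ≤ N := by omega
  have hNR : (16 : ℝ) ≤ N := by exact_mod_cast hN16
  set x : ℝ := Real.log N with hx
  have hxmax : max x₀ (4 * (Y₁ : ℝ)) ≤ x := by
    rw [hx, Real.le_log_iff_exp_le (by linarith)]
    have h1 : ⌈Real.exp (max x₀ (4 * Y₁))⌉₊ ≤ N := by omega
    exact (Nat.le_ceil _).trans (by exact_mod_cast h1)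
  have hx₀x : x₀ ≤ x := (le_max_left _ _).trans hxmax
  have hxY : 4 * (Y₁ : ℝ) ≤ x := (le_max_right _ _).trans hxmax
  have hx1600 : (1600 : ℝ) ≤ x := hx₀.trans hx₀x
  have hx0 : 0 < x := by linarith
  obtain ⟨l4a, l4b⟩ := log_four_bounds
  set y : ℕ := ⌊x / (2 * Real.log 4)⌋₊ with hy
  have hyle : (y : ℝ) ≤ x / (2 * Real.log 4) := Nat.floor_le (by positivity)
  have hylt : x / (2 * Real.log 4) < (y : ℝ) + 1 := Nat.lt_floor_add_one _
  have hyx : (y : ℝ) ≤ x := by
    refine hyle.trans ?_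
    rw [div_le_iff₀ (by positivity)]
    nlinarith
  have hx4 : x / 4 ≤ y := by
    have e1 : x / 4 + 1 ≤ x / (2 * Real.log 4) := by
      rw [le_div_iff₀ (by positivity)]
      nlinarith
    linarith
  have hYy : Y₁ ≤ y := by
    have : (Y₁ : ℝ) ≤ y := by linarith
    exact_mod_cast this
  have hg := hY₁ y hYy
  obtain ⟨L, hL1, hL2, hL3⟩ := Pool.Agent.H901R3.MS.t_LY y ⌊(y : ℝ) ^ (3 / 4 : ℝ)⌋₊
  have hK1 : 1 ≤ K := hm.one_lt.le.trans hmK
  set T : Finset ℕ := (GoodP (m ^ 3) y).filter (fun ℓ => K < ℓ) with hT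
  have hTp : ∀ ℓ ∈ T, ℓ.Prime ∧ ℓ - 1 ∣ m * L ∧ m ^ 3 ∣ ℓ - 1 ∧ K < ℓ ∧ ℓ ≤ y := by
    intro ℓ hℓ
    rw [hT, mem_filter, GoodP, mem_filter, mem_Icc] at hℓ
    obtain ⟨⟨⟨h1, h2⟩, h3, h4, h5⟩, h6⟩ := hℓ
    refine ⟨h3, ?_, ?_, h6, h2⟩
    · have : ℓ - 1 ∣ L := hL3 (ℓ - 1) (by have := h3.two_le; omega) (by omega) h5
      exact this.mul_left m
    · have : 1 ≡ ℓ [MOD m ^ 3] := by
        have h7 : ℓ ≡ 1 [MOD m ^ 3] := h4
        exact h7.symm
      exact (Nat.modEq_iff_dvd' h1).1 this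
  have hTcard : ((GoodP (m ^ 3) y).card : ℝ) ≤ (T.card : ℝ) + K := by
    have h1 : GoodP (m ^ 3) y ⊆ T ∪ Icc 1 K := by
      intro ℓ hℓ
      rw [mem_union]
      by_cases h : K < ℓ
      · left; rw [hT, mem_filter]; exact ⟨hℓ, h⟩
      · right
        have : ℓ.Prime := by
          rw [GoodP, mem_filter] at hℓ; exact hℓ.2.1
        rw [mem_Icc]; exact ⟨this.one_lt.le, by omega⟩
    have h2 := (Finset.card_le_card h1).trans (Finset.card_union_le _ _)
    rw [Nat.card_Icc, Nat.add_sub_cancel] at h2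
    exact_mod_cast h2
  have hn := hnum x hx₀x k K y L T.card hk hK hK1 hx4 hyx (by exact_mod_cast hL2) hL1
    (hg.trans hTcard)
  set e₁ : ℝ := Real.exp (-c₁ * (x / Real.log x)) with he₁
  have he₁0 : 0 < e₁ := Real.exp_pos _
  -- the modulus
  have hTy : T.card ≤ y := by
    have h1 : T ⊆ Icc 1 y := by
      intro ℓ hℓ
      rw [mem_Icc]
      exact ⟨(hTp ℓ hℓ).1.one_lt.le, (hTp ℓ hℓ).2.2.2.2⟩
    have := Finset.card_le_card h1
    rwa [Nat.card_Icc, Nat.add_sub_cancel] at this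
  have hmod : (∏ ℓ ∈ T, ℓ) ^ 2 ≤ N := by
    have h1 := prod_primes_le T y (fun ℓ hℓ => ⟨(hTp ℓ hℓ).1, (hTp ℓ hℓ).2.2.2.2⟩)
    have h2 : (((∏ ℓ ∈ T, ℓ) ^ 2 : ℕ) : ℝ) ≤ N := by
      have e1 : (((∏ ℓ ∈ T, ℓ) ^ 2 : ℕ) : ℝ) ≤ (((4 ^ y) ^ 2 : ℕ) : ℝ) := by
        exact_mod_cast Nat.pow_le_pow_left h1 2
      refine e1.trans ?_
      push_cast
      have e2 : ((4 : ℝ) ^ y) ^ 2 = Real.exp (2 * y * Real.log 4) := by
        rw [show 2 * (y : ℝ) * Real.log 4 = ((y * 2 : ℕ) : ℝ) * Real.log 4 by push_cast; ring,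
          Real.exp_nat_mul, Real.exp_log (by norm_num), pow_mul]
      rw [e2]
      have e3 : 2 * (y : ℝ) * Real.log 4 ≤ x := by
        rw [le_div_iff₀ (by positivity)] at hyle
        linarith
      calc Real.exp (2 * y * Real.log 4) ≤ Real.exp x := Real.exp_le_exp.2 e3
        _ = N := by rw [hx, Real.exp_log (by linarith)]
    exact_mod_cast h2
  -- the tuples with an entry in `T`
  have hA := excl_count2 (k := k) T (e₁ / 2) (by positivity) N' (by
    intro i
    have hpi := Pool.Agent.H901R3.MS.W_SPX.pi_lower N hN16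
    have hmono : (Nat.primeCounting N : ℝ) ≤ Nat.primeCounting (N' i) := by
      exact_mod_cast Nat.monotone_primeCounting (hN' i)
    have hkx : (k : ℝ) ≤ x := by
      refine hk.trans ?_
      conv_rhs => rw [← Real.rpow_one x]
      exact Real.rpow_le_rpow_of_exponent_le (by linarith) (by norm_num)
    have hTx : (T.card : ℝ) ≤ x := by
      have : (T.card : ℝ) ≤ y := by exact_mod_cast hTy
      linarith
    have hlogx1 : 1 ≤ Real.log x := by
      rw [Real.le_log_iff_exp_le hx0]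
      have := Real.exp_one_lt_d9
      linarith
    have he : Real.exp (-(x / 4)) ≤ e₁ := by
      rw [he₁]
      apply Real.exp_le_exp.2
      have e1 : x / Real.log x ≤ x := div_le_self hx0.le hlogx1
      have e2 : c₁ * (x / Real.log x) ≤ 1 / 4 * x := by
        apply mul_le_mul hc₁4 e1 (by positivity) (by norm_num)
      linarith
    have hNexp : (N : ℝ) = Real.exp x := by rw [hx, Real.exp_log (by linarith)]
    have h1 : (T.card : ℝ) * k ≤ x * x := mul_le_mul hTx hkx (Nat.cast_nonneg _) hx0.le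
    refine h1.trans ?_
    have h2 : x ^ 4 * (3 / 4) ^ 4 / 24 ≤ Real.exp (3 / 4 * x) := by
      have := Real.pow_div_factorial_le_exp (3 / 4 * x) (by positivity) 4
      have e1 : (3 / 4 * x) ^ 4 / ((Nat.factorial 4 : ℕ) : ℝ) = x ^ 4 * (3 / 4) ^ 4 / 24 := by
        norm_num [Nat.factorial]; ring
      rw [e1] at this
      exact this
    have h3 : Real.exp (-(x / 4)) * Real.exp x = Real.exp (3 / 4 * x) := by
      rw [← Real.exp_add]; congr 1; ring
    calc x * x ≤ Real.exp (3 / 4 * x) / (4 * x) := by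
          rw [le_div_iff₀ (by positivity)]
          have : x * x * (4 * x) ≤ x ^ 4 * (3 / 4) ^ 4 / 24 := by
            have e1 : x ^ 4 = x * x * x * x := by ring
            have e2 : 0 ≤ x * x * x := by positivity
            nlinarith
          linarith
      _ = Real.exp (-(x / 4)) / 2 * (1 / 2 * (N / x)) := by
          rw [hNexp, ← h3]; field_simp; ring
      _ ≤ e₁ / 2 * (1 / 2 * (N / x)) := by gcongr
      _ ≤ e₁ / 2 * (Nat.primeCounting N : ℝ) := by gcongr
      _ ≤ e₁ / 2 * (Nat.primeCounting (N' i) : ℝ) := by gcongr)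
  have hB := hC₁ k T (fun ℓ hℓ => (hTp ℓ hℓ).1) N' (fun i =>
    ⟨hN16.trans (hN' i), hmod.trans (hN' i)⟩)
  set V : ℝ := ∏ i, (Nat.primeCounting (N' i) : ℝ) with hV
  have hV0 : 0 ≤ V := Finset.prod_nonneg fun _ _ => Nat.cast_nonneg _
  set F : Idx k → Finset (Fin k → ℕ) := fun x =>
    (Fintype.piFinset (fun i => PR (N' i))).filter (fun p => ∀ ℓ ∈ T, (fun i => p i % ℓ) ∈
      Pz m x.1.1 x.1.2.1 x.1.2.2 x.2.1 x.2.2 ℓ) with hF
  have hFcard : ∀ x ∈ Params k K m (m * L), ((F x).card : ℝ) ≤ C₁ ^ k * (13 / 16) ^ T.card * V := by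
    intro x hx
    rw [Params] at hx
    obtain ⟨hx1, ⟨i₀, g1, g2, g3⟩, hx3⟩ := Finset.mem_filter.1 hx
    rw [mem_product, mem_product] at hx1
    have hs : x.2.1 = 1 ∨ x.2.1 = -1 := by
      have := (Finset.mem_product.1 hx1.2).1
      simpa using this
    apply hB (fun ℓ => Pz m x.1.1 x.1.2.1 x.1.2.2 x.2.1 x.2.2 ℓ) (13 / 16) (by norm_num)
    · intro ℓ _ v hv i
      exact ((mem_Pz _ _ _ _ _ _ _).1 hv).1 i |>.2
    · intro ℓ hℓ
      obtain ⟨h1, h2, h3, h4, _⟩ := hTp ℓ hℓ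
      apply Pz_card hm _ _ _ _ hs _ ℓ h1 h3 i₀ g1 g2 g3
      intro h
      have := hx3 ℓ h1 h
      omega
  have hsub : ((Fintype.piFinset (fun i => PR (N' i))).filter (fun p => ¬ Good K m p)) ⊆
      ((Fintype.piFinset (fun i => PR (N' i))).filter (fun p => ∃ i, p i ∈ T)) ∪
        (Params k K m (m * L)).biUnion F := by
    intro p hp
    rw [mem_filter] at hp
    rw [mem_union]
    by_cases h : ∃ i, p i ∈ T
    · left; rw [mem_filter]; exact ⟨hp.1, h⟩
    · right
      push Not at h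
      have hpp : ∀ i, (p i).Prime := by
        intro i
        have := (Fintype.mem_piFinset.1 hp.1) i
        rw [PR, mem_filter] at this
        exact this.2
      obtain ⟨x, hx, hxr⟩ := residues (k := k) (K := K) (m := m) (L := m * L) hm hK1
        (dvd_mul_right m L) (Nat.mul_pos hm.pos hL1) T
        (fun ℓ hℓ => ⟨(hTp ℓ hℓ).1, (hTp ℓ hℓ).2.1⟩) p hpp h hp.2
      rw [mem_biUnion]
      exact ⟨x, hx, by rw [hF, mem_filter]; exact ⟨hp.1, hxr⟩⟩
  have h1 : (((Fintype.piFinset (fun i => PR (N' i))).filter (fun p => ¬ Good K m p)).card : ℝ) ≤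
      ((((Fintype.piFinset (fun i => PR (N' i))).filter (fun p => ∃ i, p i ∈ T)).card : ℕ) : ℝ) +
        ∑ x ∈ Params k K m (m * L), ((F x).card : ℝ) := by
    have e1 := (Finset.card_le_card hsub).trans (Finset.card_union_le _ _)
    have e2 := Finset.card_biUnion_le (s := Params k K m (m * L)) (t := F)
    have e3 := e1.trans (Nat.add_le_add_left e2 _)
    exact_mod_cast e3
  have h2 : ∑ x ∈ Params k K m (m * L), ((F x).card : ℝ) ≤ e₁ / 2 * V := by
    calc ∑ x ∈ Params k K m (m * L), ((F x).card : ℝ)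
        ≤ ∑ x ∈ Params k K m (m * L), C₁ ^ k * (13 / 16) ^ T.card * V := Finset.sum_le_sum hFcard
      _ = ((Params k K m (m * L)).card : ℝ) * (C₁ ^ k * (13 / 16) ^ T.card * V) := by
          rw [Finset.sum_const, nsmul_eq_mul]
      _ ≤ (((m * L : ℕ) : ℝ) ^ (3 * k) * (2 * ((K : ℝ) ^ m) ^ K)) *
            (C₁ ^ k * (13 / 16) ^ T.card * V) :=
          mul_le_mul_of_nonneg_right (Params_card k K m (m * L)) (by positivity)
      _ = (((m * L : ℕ) : ℝ) ^ (3 * k) * (2 * ((K : ℝ) ^ m) ^ K) * C₁ ^ k *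
            (13 / 16) ^ T.card) * V := by ring
      _ ≤ e₁ / 2 * V := mul_le_mul_of_nonneg_right hn hV0
  linarith

theorem Sol_mono {k K K' M : ℕ} (p : Fin k → ℕ) (hK : K ≤ K') (h : Sol K M p) : Sol K' M p := by
  obtain ⟨a, b, c, C, m, h1, h2, h3, h4, h5, h6, h7, h8, h9⟩ := h
  exact ⟨a, b, c, C, m, h1, h2, h3, h4, h5, h6, h7,
    fun r hr hd => (h8 r hr hd).imp (fun h => h.trans hK) id, h9⟩

open Classical in
theorem main2 (M : ℕ) : ∃ c : ℝ, 0 < c ∧ ∃ N₀ : ℕ, ∀ N : ℕ, N₀ ≤ N →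
    ∀ k K : ℕ, (k : ℝ) ≤ Real.log N ^ (1 / 10 : ℝ) → (K : ℝ) ≤ Real.log N ^ (1 / 10 : ℝ) →
    ∀ N' : Fin k → ℕ, (∀ i, N ≤ N' i) →
      (((Fintype.piFinset (fun i => PR (N' i))).filter (fun p => Sol K M p)).card : ℝ) ≤
        Real.exp (-c * (Real.log N / Real.log (Real.log N))) *
          ∏ i, (Nat.primeCounting (N' i) : ℝ) := by
  have hb : ∀ m : ℕ, ∃ c : ℝ, 0 < c ∧ ∃ N₀ : ℕ, m.Prime → ∀ N : ℕ, N₀ ≤ N →
      ∀ k K : ℕ, (k : ℝ) ≤ Real.log N ^ (1 / 10 : ℝ) → (K : ℝ) ≤ Real.log N ^ (1 / 10 : ℝ) → m ≤ K →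
      ∀ N' : Fin k → ℕ, (∀ i, N ≤ N' i) →
      (((Fintype.piFinset (fun i => PR (N' i))).filter (fun p => ¬ Good K m p)).card : ℝ) ≤
        Real.exp (-c * (Real.log N / Real.log (Real.log N))) *
          ∏ i, (Nat.primeCounting (N' i) : ℝ) := by
    intro m
    by_cases h : m.Prime
    · obtain ⟨c, hc, N₀, hN₀⟩ := bad_count2 m h
      exact ⟨c, hc, N₀, fun _ => hN₀⟩
    · exact ⟨1, one_pos, 0, fun h1 => absurd h1 h⟩
  choose cf hcf N₁ hN₁ using hb
  have hne : (range (M + 1)).Nonempty := ⟨0, mem_range.2 (by omega)⟩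
  set c₂ : ℝ := min ((range (M + 1)).inf' hne cf) (1 / 4) with hc₂
  have hc₂0 : 0 < c₂ := by
    apply lt_min _ (by norm_num)
    rw [Finset.lt_inf'_iff]
    intro m _
    exact hcf m
  have hc₂m : ∀ m ∈ range (M + 1), c₂ ≤ cf m := fun m hm =>
    (min_le_left _ _).trans (Finset.inf'_le cf hm)
  have hc₂4 : c₂ ≤ 1 / 4 := min_le_right _ _
  -- large `x`
  have htend : Filter.Tendsto (fun x : ℝ => x ^ (1 / 10 : ℝ)) Filter.atTop Filter.atTop :=
    tendsto_rpow_atTop (by norm_num)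
  obtain ⟨X, hX⟩ := (Filter.tendsto_atTop.1 htend
    (max ((M : ℝ)) (10 * Real.log (2 * ((M : ℝ) + 1)) / (c₂ / 2)))).exists_forall_of_atTop
  refine ⟨c₂ / 2, by positivity, max (⌈Real.exp (max X 1600)⌉₊ + 16) ((range (M + 1)).sup N₁),
    fun N hN k K hk hK N' hN' => ?_⟩
  have hNA : ⌈Real.exp (max X 1600)⌉₊ + 16 ≤ N := (le_max_left _ _).trans hN
  have hN16 : 16 ≤ N := by omega
  have hNR : (16 : ℝ) ≤ N := by exact_mod_cast hN16
  set x : ℝ := Real.log N with hx
  have hxmax : max X 1600 ≤ x := by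
    rw [hx, Real.le_log_iff_exp_le (by linarith)]
    have h1 : ⌈Real.exp (max X 1600)⌉₊ ≤ N := by omega
    exact (Nat.le_ceil _).trans (by exact_mod_cast h1)
  have hXx := hX x ((le_max_left _ _).trans hxmax)
  have hx1600 : (1600 : ℝ) ≤ x := (le_max_right _ _).trans hxmax
  have hx0 : 0 < x := by linarith
  have hMx : (M : ℝ) ≤ x ^ (1 / 10 : ℝ) := (le_max_left _ _).trans hXx
  have hlogx1 : 1 ≤ Real.log x := by
    rw [Real.le_log_iff_exp_le hx0]
    have := Real.exp_one_lt_d9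
    linarith
  set R : ℝ := x / Real.log x with hR
  have hR0 : 0 < R := by positivity
  have hMR : 2 * ((M : ℝ) + 1) * Real.exp (-c₂ * R) ≤ Real.exp (-(c₂ / 2) * R) := by
    have e1 : 10 * Real.log (2 * ((M : ℝ) + 1)) / (c₂ / 2) ≤ x ^ (1 / 10 : ℝ) :=
      (le_max_right _ _).trans hXx
    rw [div_le_iff₀ (by positivity)] at e1
    have e2 : x ^ (1 / 10 : ℝ) ≤ 10 * R := by
      have h3 : Real.log x ≤ 10 * x ^ (1 / 10 : ℝ) := by
        have := Real.log_le_rpow_div hx0.le (show (0 : ℝ) < 1 / 10 by norm_num)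
        linarith
      have h4 : x ^ (1 / 10 : ℝ) * x ^ (1 / 10 : ℝ) ≤ x := by
        rw [← Real.rpow_add hx0]
        conv_rhs => rw [← Real.rpow_one x]
        exact Real.rpow_le_rpow_of_exponent_le (by linarith) (by norm_num)
      rw [hR, ← mul_div_assoc, le_div_iff₀ (by linarith)]
      have h5 : 0 ≤ x ^ (1 / 10 : ℝ) := Real.rpow_nonneg hx0.le _
      nlinarith
    have e3 : Real.log (2 * ((M : ℝ) + 1)) ≤ c₂ / 2 * R := by
      have : x ^ (1 / 10 : ℝ) * (c₂ / 2) ≤ 10 * R * (c₂ / 2) :=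
        mul_le_mul_of_nonneg_right e2 (by positivity)
      linarith
    have e4 : 2 * ((M : ℝ) + 1) = Real.exp (Real.log (2 * ((M : ℝ) + 1))) :=
      (Real.exp_log (by positivity)).symm
    rw [e4, ← Real.exp_add]
    apply Real.exp_le_exp.2
    linarith
  set V : ℝ := ∏ i, (Nat.primeCounting (N' i) : ℝ) with hV
  have hV0 : 0 ≤ V := Finset.prod_nonneg fun _ _ => Nat.cast_nonneg _
  set K' : ℕ := max K M with hK'
  have hK'x : (K' : ℝ) ≤ x ^ (1 / 10 : ℝ) := by
    rw [hK', Nat.cast_max]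
    exact max_le hK hMx
  have hA := excl_count2 (k := k) {2} (Real.exp (-c₂ * R)) (Real.exp_pos _) N' (by
    intro i
    have hpi := Pool.Agent.H901R3.MS.W_SPX.pi_lower N hN16
    have hmono : (Nat.primeCounting N : ℝ) ≤ Nat.primeCounting (N' i) := by
      exact_mod_cast Nat.monotone_primeCounting (hN' i)
    have hkx : (k : ℝ) ≤ x := by
      refine hk.trans ?_
      conv_rhs => rw [← Real.rpow_one x]
      exact Real.rpow_le_rpow_of_exponent_le (by linarith) (by norm_num)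
    have he : Real.exp (-(x / 4)) ≤ Real.exp (-c₂ * R) := by
      apply Real.exp_le_exp.2
      have e1 : x / Real.log x ≤ x := div_le_self hx0.le hlogx1
      have e2 : c₂ * (x / Real.log x) ≤ 1 / 4 * x := by
        apply mul_le_mul hc₂4 e1 (by positivity) (by norm_num)
      rw [hR]
      linarith
    have hNexp : (N : ℝ) = Real.exp x := by rw [hx, Real.exp_log (by linarith)]
    have h2 : x ^ 4 * (3 / 4) ^ 4 / 24 ≤ Real.exp (3 / 4 * x) := by
      have := Real.pow_div_factorial_le_exp (3 / 4 * x) (by positivity) 4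
      have e1 : (3 / 4 * x) ^ 4 / ((Nat.factorial 4 : ℕ) : ℝ) = x ^ 4 * (3 / 4) ^ 4 / 24 := by
        norm_num [Nat.factorial]; ring
      rw [e1] at this
      exact this
    have h3 : Real.exp (-(x / 4)) * Real.exp x = Real.exp (3 / 4 * x) := by
      rw [← Real.exp_add]; congr 1; ring
    rw [Finset.card_singleton, Nat.cast_one, one_mul]
    calc (k : ℝ) ≤ x := hkx
      _ ≤ Real.exp (3 / 4 * x) / (2 * x) := by
          rw [le_div_iff₀ (by positivity)]
          have : x * (2 * x) ≤ x ^ 4 * (3 / 4) ^ 4 / 24 := by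
            have e1 : x ^ 4 = x * x * (x * x) := by ring
            have e2 : 0 ≤ x * x := by positivity
            have e3 : 1600 * 1600 ≤ x * x := by nlinarith
            nlinarith
          linarith
      _ = Real.exp (-(x / 4)) * (1 / 2 * (N / x)) := by
          rw [hNexp, ← h3]; field_simp
      _ ≤ Real.exp (-c₂ * R) * (1 / 2 * (N / x)) := by gcongr
      _ ≤ Real.exp (-c₂ * R) * (Nat.primeCounting N : ℝ) := by gcongr
      _ ≤ Real.exp (-c₂ * R) * (Nat.primeCounting (N' i) : ℝ) := by gcongr)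
  set S : Finset (Fin k → ℕ) := Fintype.piFinset (fun i => PR (N' i)) with hS
  set I : Finset ℕ := (range (M + 1)).filter Nat.Prime with hI
  have hsub : S.filter (fun p => Sol K M p) ⊆ S.filter (fun p => ∃ i, p i ∈ ({2} : Finset ℕ)) ∪
      I.biUnion (fun m => S.filter (fun p => ¬ Good K' m p)) := by
    intro p hp
    rw [mem_filter] at hp
    rw [mem_union]
    by_cases h2 : ∃ i, p i ∈ ({2} : Finset ℕ)
    · left; rw [mem_filter]; exact ⟨hp.1, h2⟩
    · right
      push Not at h2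
      by_contra hcon
      apply not_sol (le_max_right K M) p
        (fun i h => h2 i (by rw [h]; exact Finset.mem_singleton_self 2)) ?_
        (Sol_mono p (le_max_left K M) hp.2)
      intro m hm hmM
      by_contra hG
      apply hcon
      rw [mem_biUnion]
      exact ⟨m, by rw [hI, mem_filter, mem_range]; exact ⟨by omega, hm⟩,
        by rw [mem_filter]; exact ⟨hp.1, hG⟩⟩
  have h1 : ((S.filter (fun p => Sol K M p)).card : ℝ) ≤
      (((S.filter (fun p => ∃ i, p i ∈ ({2} : Finset ℕ))).card : ℕ) : ℝ) +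
        ∑ m ∈ I, ((S.filter (fun p => ¬ Good K' m p)).card : ℝ) := by
    have e1 := (Finset.card_le_card hsub).trans (Finset.card_union_le _ _)
    have e2 := Finset.card_biUnion_le (s := I) (t := fun m => S.filter (fun p => ¬ Good K' m p))
    have e3 := e1.trans (Nat.add_le_add_left e2 _)
    exact_mod_cast e3
  have h2 : ∑ m ∈ I, ((S.filter (fun p => ¬ Good K' m p)).card : ℝ) ≤
      ((M : ℝ) + 1) * (Real.exp (-c₂ * R) * V) := by
    calc ∑ m ∈ I, ((S.filter (fun p => ¬ Good K' m p)).card : ℝ)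
        ≤ ∑ m ∈ I, Real.exp (-c₂ * R) * V := by
          apply Finset.sum_le_sum
          intro m hm
          rw [hI, mem_filter, mem_range] at hm
          have hmr : m ∈ range (M + 1) := mem_range.2 hm.1
          have e1 := hN₁ m hm.2 N
            (((Finset.le_sup (f := N₁) hmr).trans (le_max_right _ _)).trans hN) k K' hk hK'x
            ((by omega : m ≤ M).trans (le_max_right K M)) N' hN'
          refine e1.trans ?_
          apply mul_le_mul_of_nonneg_right _ hV0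
          apply Real.exp_le_exp.2
          have := mul_le_mul_of_nonneg_right (hc₂m m hmr) hR0.le
          have e2 : Real.log N / Real.log (Real.log N) = R := by rw [hR, hx]
          rw [e2]
          linarith
      _ = (I.card : ℝ) * (Real.exp (-c₂ * R) * V) := by rw [Finset.sum_const, nsmul_eq_mul]
      _ ≤ ((M : ℝ) + 1) * (Real.exp (-c₂ * R) * V) := by
          apply mul_le_mul_of_nonneg_right _ (by positivity)
          have : I.card ≤ M + 1 := (Finset.card_filter_le _ _).trans (by rw [Finset.card_range])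
          exact_mod_cast this
  have h3 : Real.exp (-c₂ * R) * V ≤ ((M : ℝ) + 1) * (Real.exp (-c₂ * R) * V) := by
    have : 0 ≤ Real.exp (-c₂ * R) * V := by positivity
    have : (0 : ℝ) ≤ M := Nat.cast_nonneg _
    nlinarith
  calc ((S.filter (fun p => Sol K M p)).card : ℝ)
      ≤ Real.exp (-c₂ * R) * V + ((M : ℝ) + 1) * (Real.exp (-c₂ * R) * V) := by linarith
    _ ≤ 2 * ((M : ℝ) + 1) * Real.exp (-c₂ * R) * V := by linarith
    _ ≤ Real.exp (-(c₂ / 2) * R) * V := mul_le_mul_of_nonneg_right hMR hV0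

end Pool.Agent.TH193.RS
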