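import Pool.Agent.TH193.RS.Sp

/-!
Counting tuples of primes in sets of residue classes.
-/

set_option autoImplicit false

namespace Pool.Agent.TH193.RS

open Finset

/-- the primes up to `N` -/
def PR (N : ℕ) : Finset ℕ := (Icc 1 N).filter Nat.Prime

theorem card_PR (N : ℕ) : (PR N).card = Nat.primeCounting N := by
  rw [Nat.primeCounting, Nat.primeCounting', Nat.count_eq_card_filter_range]
  congr 1
  ext p
  simp only [PR, mem_filter, mem_range, mem_Icc]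
  constructor
  · rintro ⟨⟨h1, h2⟩, h3⟩
    exact ⟨by omega, h3⟩
  · rintro ⟨h1, h3⟩
    exact ⟨⟨h3.one_lt.le, by omega⟩, h3⟩

theorem totient_prod (T : Finset ℕ) (hT : ∀ ℓ ∈ T, ℓ.Prime) :
    Nat.totient (∏ ℓ ∈ T, ℓ) = ∏ ℓ ∈ T, (ℓ - 1) := by
  classical
  induction T using Finset.induction_on with
  | empty => simp
  | insert a s ha ih =>
    rw [Finset.prod_insert ha, Finset.prod_insert ha, Nat.totient_mul, ih, Nat.totient_prime]
    · exact hT a (Finset.mem_insert_self a s)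
    · intro ℓ hℓ; exact hT ℓ (Finset.mem_insert_of_mem hℓ)
    · apply Nat.Coprime.prod_right
      intro ℓ hℓ
      rw [Nat.coprime_primes (hT a (Finset.mem_insert_self a s)) (hT ℓ (Finset.mem_insert_of_mem hℓ))]
      rintro rfl
      exact ha hℓ

theorem class_bound (T : Finset ℕ) (hT : ∀ ℓ ∈ T, ℓ.Prime) : ∃ N₀ : ℕ, ∀ N : ℕ, N₀ ≤ N →
    ∀ c : ℕ → ℕ, (∀ ℓ ∈ T, Nat.Coprime (c ℓ) ℓ) →
      (((Icc 1 N).filter (fun p : ℕ => p.Prime ∧ ∀ ℓ ∈ T, p % ℓ = c ℓ % ℓ)).card : ℝ) ≤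
        2 * (Nat.primeCounting N : ℝ) / ∏ ℓ ∈ T, ((ℓ : ℝ) - 1) := by
  classical
  set M : ℕ := ∏ ℓ ∈ T, ℓ with hM
  have hM0 : 1 ≤ M := Finset.prod_pos fun ℓ hℓ => (hT ℓ hℓ).pos
  have hφ : (Nat.totient M : ℝ) = ∏ ℓ ∈ T, ((ℓ : ℝ) - 1) := by
    rw [hM, totient_prod T hT]
    push_cast
    apply Finset.prod_congr rfl
    intro ℓ hℓ
    rw [Nat.cast_sub (hT ℓ hℓ).one_lt.le, Nat.cast_one]
  have hφ0 : (0 : ℝ) < Nat.totient M := by exact_mod_cast Nat.totient_pos.2 hM0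
  have hC : ∀ u : ℕ, ∃ C : ℝ, Nat.Coprime u M → ∀ y : ℕ, 3 ≤ y →
      (((Finset.Icc 1 y).filter (fun p : ℕ => p.Prime ∧ p % M = u % M)).card : ℝ) ≤
      (1 / (Nat.totient M : ℝ)) * (Nat.primeCounting y : ℝ) + C * (y / (Real.log y) ^ 3) := by
    intro u
    by_cases hu : Nat.Coprime u M
    · obtain ⟨C, hC⟩ := Pool.Agent.H901R3.MS.t_SPQ M u hM0 hu
      exact ⟨C, fun _ => hC⟩
    · exact ⟨0, fun h => absurd h hu⟩
  choose C hC using hC
  set C' : ℝ := ∑ u ∈ range M, |C u| with hC'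
  have hC'0 : 0 ≤ C' := Finset.sum_nonneg fun _ _ => abs_nonneg _
  refine ⟨⌈Real.exp (2 * C' * Nat.totient M + 1)⌉₊ + 16, fun N hN c hc => ?_⟩
  have hN16 : 16 ≤ N := by omega
  have hNR : (16 : ℝ) ≤ N := by exact_mod_cast hN16
  have hlog : 2 * C' * Nat.totient M + 1 ≤ Real.log N := by
    rw [Real.le_log_iff_exp_le (by linarith)]
    have h1 : ⌈Real.exp (2 * C' * Nat.totient M + 1)⌉₊ ≤ N := by omega
    exact (Nat.le_ceil _).trans (by exact_mod_cast h1)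
  have hlog1 : 1 ≤ Real.log N := by
    have : 0 ≤ 2 * C' * Nat.totient M := by positivity
    linarith
  obtain ⟨u, hu⟩ := Nat.chineseRemainderOfFinset c id T (fun ℓ hℓ => (hT ℓ hℓ).ne_zero) (by
    intro a ha b hb hab
    exact (Nat.coprime_primes (hT a ha) (hT b hb)).2 hab)
  have huM : Nat.Coprime u M := by
    rw [hM]
    apply Nat.Coprime.prod_right
    intro ℓ hℓ
    have h1 : u ≡ c ℓ [MOD ℓ] := hu ℓ hℓ
    rw [Nat.coprime_iff_gcd_eq_one, h1.gcd_eq]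
    exact hc ℓ hℓ
  set v : ℕ := u % M with hv
  have hvM : Nat.Coprime v M := by
    rw [Nat.coprime_iff_gcd_eq_one, hv, (Nat.mod_modEq u M).gcd_eq]
    exact huM
  have h2 : ((Icc 1 N).filter (fun p : ℕ => p.Prime ∧ ∀ ℓ ∈ T, p % ℓ = c ℓ % ℓ)).card ≤
      ((Finset.Icc 1 N).filter (fun p : ℕ => p.Prime ∧ p % M = v % M)).card := by
    apply Finset.card_le_card
    intro p hp
    rw [mem_filter] at hp ⊢
    refine ⟨hp.1, hp.2.1, ?_⟩
    have h3 : p ≡ u [MOD M] := by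
      rw [hM]
      have hco : (T : Set ℕ).Pairwise (Function.onFun Nat.Coprime id) := by
        intro a ha b hb hab
        exact (Nat.coprime_primes (hT a ha) (hT b hb)).2 hab
      have h4 : ∀ ℓ ∈ T, p ≡ u [MOD ℓ] := by
        intro ℓ hℓ
        have e1 : p ≡ c ℓ [MOD ℓ] := hp.2.2 ℓ hℓ
        exact e1.trans (hu ℓ hℓ).symm
      rw [Nat.modEq_iff_dvd]
      have h5 : ((∏ ℓ ∈ T, ℓ : ℕ) : ℤ) = ∏ ℓ ∈ T, (ℓ : ℤ) := by push_cast; rfl
      rw [h5]
      apply Finset.prod_dvd_of_coprime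
      · intro a ha b hb hab
        exact Nat.isCoprime_iff_coprime.2 ((Nat.coprime_primes (hT a ha) (hT b hb)).2 hab)
      · intro ℓ hℓ
        exact (Nat.modEq_iff_dvd.1 (h4 ℓ hℓ))
    have h6 : p % M = u % M := h3
    rw [h6, hv, Nat.mod_mod]
  have h3 := hC v hvM N (by omega)
  have hvr : v ∈ range M := Finset.mem_range.2 (Nat.mod_lt _ hM0)
  have h4 : C v ≤ C' := (le_abs_self _).trans
    (Finset.single_le_sum (f := fun u => |C u|) (fun _ _ => abs_nonneg _) hvr)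
  have hyl : 0 ≤ (N : ℝ) / Real.log N ^ 3 := by positivity
  have hpi := Pool.Agent.H901R3.MS.W_SPX.pi_lower N hN16
  have h5 : C' * ((N : ℝ) / Real.log N ^ 3) ≤ (1 / (Nat.totient M : ℝ)) * (Nat.primeCounting N : ℝ) := by
    have e1 : C' * ((N : ℝ) / Real.log N ^ 3) ≤
        (1 / (Nat.totient M : ℝ)) * (1 / 2 * ((N : ℝ) / Real.log N)) := by
      have e2 : (1 / (Nat.totient M : ℝ)) * (1 / 2 * ((N : ℝ) / Real.log N)) =
          (1 / (2 * Nat.totient M) * Real.log N ^ 2) * ((N : ℝ) / Real.log N ^ 3) := by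
        field_simp
      rw [e2]
      apply mul_le_mul_of_nonneg_right _ hyl
      have e3 : 2 * C' * Nat.totient M ≤ Real.log N ^ 2 := by nlinarith
      rw [div_mul_eq_mul_div, le_div_iff₀ (by positivity), one_mul]
      linarith
    exact e1.trans (mul_le_mul_of_nonneg_left hpi (by positivity))
  have h6 : C v * ((N : ℝ) / Real.log N ^ 3) ≤ C' * ((N : ℝ) / Real.log N ^ 3) :=
    mul_le_mul_of_nonneg_right h4 hyl
  have h7 : (((Icc 1 N).filter (fun p : ℕ => p.Prime ∧ ∀ ℓ ∈ T, p % ℓ = c ℓ % ℓ)).card : ℝ) ≤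
      (((Finset.Icc 1 N).filter (fun p : ℕ => p.Prime ∧ p % M = v % M)).card : ℝ) := by
    exact_mod_cast h2
  rw [← hφ]
  have h8 : 2 * (Nat.primeCounting N : ℝ) / Nat.totient M =
      (1 / (Nat.totient M : ℝ)) * (Nat.primeCounting N : ℝ) +
        (1 / (Nat.totient M : ℝ)) * (Nat.primeCounting N : ℝ) := by ring
  rw [h8]
  linarith

open Classical in
/-- the number of tuples of primes in a product set of residue classes -/
theorem tuple_count {k : ℕ} (T : Finset ℕ) (hT : ∀ ℓ ∈ T, ℓ.Prime) : ∃ N₀ : ℕ,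
    ∀ N : Fin k → ℕ, (∀ i, N₀ ≤ N i) → ∀ (P : ℕ → Finset (Fin k → ℕ)) (θ : ℝ), 0 ≤ θ →
      (∀ ℓ ∈ T, ∀ v ∈ P ℓ, ∀ i, Nat.Coprime (v i) ℓ) →
      (∀ ℓ ∈ T, ((P ℓ).card : ℝ) ≤ θ * ((ℓ : ℝ) - 1) ^ k) →
      (((Fintype.piFinset (fun i => PR (N i))).filter
        (fun p => ∀ ℓ ∈ T, (fun i => p i % ℓ) ∈ P ℓ)).card : ℝ) ≤
        2 ^ k * θ ^ T.card * ∏ i, (Nat.primeCounting (N i) : ℝ) := by
  obtain ⟨N₀, hN₀⟩ := class_bound T hT
  refine ⟨N₀, fun N hN P θ hθ hP hcard => ?_⟩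
  set cf : (∀ ℓ ∈ T, Fin k → ℕ) → Fin k → ℕ → ℕ := fun f i ℓ => if h : ℓ ∈ T then f ℓ h i else 1
    with hcf
  set F : (∀ ℓ ∈ T, Fin k → ℕ) → Finset (Fin k → ℕ) := fun f =>
    Fintype.piFinset (fun i => (Icc 1 (N i)).filter
      (fun p : ℕ => p.Prime ∧ ∀ ℓ ∈ T, p % ℓ = cf f i ℓ % ℓ)) with hF
  have hsub : ((Fintype.piFinset (fun i => PR (N i))).filter
        (fun p => ∀ ℓ ∈ T, (fun i => p i % ℓ) ∈ P ℓ)) ⊆ (T.pi P).biUnion F := by
    intro p hp
    rw [mem_filter, Fintype.mem_piFinset] at hp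
    rw [mem_biUnion]
    refine ⟨fun ℓ _ i => p i % ℓ, ?_, ?_⟩
    · rw [Finset.mem_pi]
      intro ℓ hℓ
      exact hp.2 ℓ hℓ
    · rw [hF, Fintype.mem_piFinset]
      intro i
      have h1 := hp.1 i
      rw [PR, mem_filter] at h1
      rw [mem_filter]
      refine ⟨h1.1, h1.2, fun ℓ hℓ => ?_⟩
      simp only [hcf, hℓ, dif_pos, Nat.mod_mod]
  have hprod0 : 0 < ∏ ℓ ∈ T, ((ℓ : ℝ) - 1) := by
    apply Finset.prod_pos
    intro ℓ hℓ
    have : (1 : ℝ) < ℓ := by exact_mod_cast (hT ℓ hℓ).one_lt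
    linarith
  have hFcard : ∀ f ∈ T.pi P, ((F f).card : ℝ) ≤
      ∏ i, (2 * (Nat.primeCounting (N i) : ℝ) / ∏ ℓ ∈ T, ((ℓ : ℝ) - 1)) := by
    intro f hf
    rw [hF, Fintype.card_piFinset]
    push_cast
    apply Finset.prod_le_prod (fun _ _ => Nat.cast_nonneg _)
    intro i _
    apply hN₀ (N i) (hN i) (cf f i)
    intro ℓ hℓ
    simp only [hcf, hℓ, dif_pos]
    exact hP ℓ hℓ _ (Finset.mem_pi.1 hf ℓ hℓ) i
  have h1 : (((Fintype.piFinset (fun i => PR (N i))).filter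
        (fun p => ∀ ℓ ∈ T, (fun i => p i % ℓ) ∈ P ℓ)).card : ℝ) ≤
      ∑ f ∈ T.pi P, ((F f).card : ℝ) := by
    have := (Finset.card_le_card hsub).trans Finset.card_biUnion_le
    exact_mod_cast this
  refine h1.trans ((Finset.sum_le_sum hFcard).trans ?_)
  rw [Finset.sum_const, nsmul_eq_mul, Finset.card_pi]
  have h2 : ((∏ ℓ ∈ T, (P ℓ).card : ℕ) : ℝ) ≤ θ ^ T.card * (∏ ℓ ∈ T, ((ℓ : ℝ) - 1)) ^ k := by
    push_cast
    calc ∏ ℓ ∈ T, ((P ℓ).card : ℝ) ≤ ∏ ℓ ∈ T, (θ * ((ℓ : ℝ) - 1) ^ k) :=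
          Finset.prod_le_prod (fun _ _ => Nat.cast_nonneg _) hcard
      _ = θ ^ T.card * (∏ ℓ ∈ T, ((ℓ : ℝ) - 1)) ^ k := by
          rw [Finset.prod_mul_distrib, Finset.prod_const, Finset.prod_pow]
  have h3 : ∏ i : Fin k, (2 * (Nat.primeCounting (N i) : ℝ) / ∏ ℓ ∈ T, ((ℓ : ℝ) - 1)) =
      2 ^ k * (∏ i, (Nat.primeCounting (N i) : ℝ)) / (∏ ℓ ∈ T, ((ℓ : ℝ) - 1)) ^ k := by
    rw [Finset.prod_div_distrib, Finset.prod_mul_distrib, Finset.prod_const, Finset.prod_const,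
      Finset.card_univ, Fintype.card_fin]
  rw [h3]
  have h4 : 0 ≤ 2 ^ k * (∏ i, (Nat.primeCounting (N i) : ℝ)) / (∏ ℓ ∈ T, ((ℓ : ℝ) - 1)) ^ k := by
    positivity
  refine (mul_le_mul_of_nonneg_right h2 h4).trans (le_of_eq ?_)
  field_simp

open Classical in
/-- few tuples have an entry in a given finite set -/
theorem excl_count {k : ℕ} (E : Finset ℕ) (ε : ℝ) (hε : 0 < ε) : ∃ N₀ : ℕ,
    ∀ N : Fin k → ℕ, (∀ i, N₀ ≤ N i) →
      (((Fintype.piFinset (fun i => PR (N i))).filter (fun p => ∃ i, p i ∈ E)).card : ℝ) ≤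
        ε * ∏ i, (Nat.primeCounting (N i) : ℝ) := by
  obtain ⟨A, hA⟩ := exists_nat_ge ((E.card : ℝ) * k / ε)
  obtain ⟨N₀, hN₀⟩ := (Filter.tendsto_atTop.1 Nat.tendsto_primeCounting A).exists_forall_of_atTop
  refine ⟨N₀, fun N hN => ?_⟩
  have hsub : ((Fintype.piFinset (fun i => PR (N i))).filter (fun p => ∃ i, p i ∈ E)) ⊆
      (univ : Finset (Fin k)).biUnion (fun i =>
        Fintype.piFinset (fun j => if j = i then E else PR (N j))) := by
    intro p hp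
    rw [mem_filter, Fintype.mem_piFinset] at hp
    obtain ⟨i, hi⟩ := hp.2
    rw [mem_biUnion]
    refine ⟨i, mem_univ _, ?_⟩
    rw [Fintype.mem_piFinset]
    intro j
    by_cases hj : j = i
    · rw [if_pos hj, hj]; exact hi
    · rw [if_neg hj]; exact hp.1 j
  have h1 : (((Fintype.piFinset (fun i => PR (N i))).filter (fun p => ∃ i, p i ∈ E)).card : ℝ) ≤
      ∑ i : Fin k, ((Fintype.piFinset (fun j => if j = i then E else PR (N j))).card : ℝ) := by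
    have := (Finset.card_le_card hsub).trans Finset.card_biUnion_le
    exact_mod_cast this
  refine h1.trans ?_
  rcases Nat.eq_zero_or_pos k with hk | hk
  · subst hk
    simp only [Finset.univ_eq_empty, Finset.sum_empty, Finset.prod_empty, mul_one]
    exact hε.le
  have hkR : (0 : ℝ) < k := by exact_mod_cast hk
  have h2 : ∀ i : Fin k, ((Fintype.piFinset (fun j => if j = i then E else PR (N j))).card : ℝ) ≤
      ε / k * ∏ i, (Nat.primeCounting (N i) : ℝ) := by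
    intro i
    rw [Fintype.card_piFinset]
    push_cast
    rw [← Finset.mul_prod_erase univ _ (mem_univ i), ← Finset.mul_prod_erase univ _ (mem_univ i),
      if_pos rfl, ← mul_assoc]
    have e1 : ∏ x ∈ univ.erase i, (((if x = i then E else PR (N x)).card : ℕ) : ℝ) =
        ∏ x ∈ univ.erase i, (Nat.primeCounting (N x) : ℝ) := by
      apply Finset.prod_congr rfl
      intro x hx
      rw [if_neg (Finset.ne_of_mem_erase hx), card_PR]
    rw [e1]
    apply mul_le_mul_of_nonneg_right _ (Finset.prod_nonneg fun _ _ => Nat.cast_nonneg _)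
    have e2 : (A : ℝ) ≤ Nat.primeCounting (N i) := by exact_mod_cast hN₀ (N i) (hN i)
    have e3 : (E.card : ℝ) * k / ε ≤ Nat.primeCounting (N i) := hA.trans e2
    rw [div_le_iff₀ hε] at e3
    rw [div_mul_eq_mul_div, le_div_iff₀ hkR]
    linarith
  refine (Finset.sum_le_sum fun i _ => h2 i).trans (le_of_eq ?_)
  rw [Finset.sum_const, Finset.card_univ, Fintype.card_fin, nsmul_eq_mul]
  field_simp

end Pool.Agent.TH193.RS
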