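import Pool.Agent.TH193.RS.Cnt
import Pool.Agent.Helper602.MK.J3

/-!
Counting tuples of primes in sets of residue classes, with uniformity (Brun-Titchmarsh).
-/

set_option autoImplicit false

namespace Pool.Agent.TH193.RS

open Finset

theorem class_bound2 : ∃ C₁ : ℝ, 1 ≤ C₁ ∧ ∀ (T : Finset ℕ), (∀ ℓ ∈ T, ℓ.Prime) → ∀ N : ℕ, 16 ≤ N →
    (∏ ℓ ∈ T, ℓ) ^ 2 ≤ N → ∀ c : ℕ → ℕ, (∀ ℓ ∈ T, Nat.Coprime (c ℓ) ℓ) →
      (((Icc 1 N).filter (fun p : ℕ => p.Prime ∧ ∀ ℓ ∈ T, p % ℓ = c ℓ % ℓ)).card : ℝ) ≤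
        C₁ * (Nat.primeCounting N : ℝ) / ∏ ℓ ∈ T, ((ℓ : ℝ) - 1) := by
  classical
  obtain ⟨C, hC1, hC⟩ := Pool.Agent.Helper602.MK.BTLib.brun_titchmarsh
  refine ⟨8 * C, by linarith, fun T hT N hN16 hMN c hc => ?_⟩
  set M : ℕ := ∏ ℓ ∈ T, ℓ with hM
  have hM0 : 1 ≤ M := Finset.prod_pos fun ℓ hℓ => (hT ℓ hℓ).pos
  have hφ : (Nat.totient M : ℝ) = ∏ ℓ ∈ T, ((ℓ : ℝ) - 1) := by
    rw [hM, totient_prod T hT]
    push_cast
    apply Finset.prod_congr rfl
    intro ℓ hℓ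
    rw [Nat.cast_sub (hT ℓ hℓ).one_lt.le, Nat.cast_one]
  have hφ0 : (0 : ℝ) < Nat.totient M := by exact_mod_cast Nat.totient_pos.2 hM0
  have hNR : (16 : ℝ) ≤ N := by exact_mod_cast hN16
  have hMR : (1 : ℝ) ≤ M := by exact_mod_cast hM0
  have hMNR : (M : ℝ) ^ 2 ≤ N := by exact_mod_cast hMN
  have hMleN : M ≤ N := by nlinarith
  obtain ⟨u, hu⟩ := Nat.chineseRemainderOfFinset c id T (fun ℓ hℓ => (hT ℓ hℓ).ne_zero) (by
    intro a ha b hb hab
    exact (Nat.coprime_primes (hT a ha) (hT b hb)).2 hab)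
  set v : ℕ := u % M with hv
  set n : ℕ := N / M + 1 with hn
  have hn2 : 2 ≤ n := by
    have : 1 ≤ N / M := (Nat.one_le_div_iff hM0).2 hMleN
    omega
  have h2 : ((Icc 1 N).filter (fun p : ℕ => p.Prime ∧ ∀ ℓ ∈ T, p % ℓ = c ℓ % ℓ)).card ≤
      ((Finset.range n).filter (fun k => (v + k * M).Prime)).card := by
    have hkey : ∀ p ∈ (Icc 1 N).filter (fun p : ℕ => p.Prime ∧ ∀ ℓ ∈ T, p % ℓ = c ℓ % ℓ),
        p % M = v := by
      intro p hp
      rw [mem_filter] at hp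
      have h3 : p ≡ u [MOD M] := by
        rw [hM]
        have h4 : ∀ ℓ ∈ T, p ≡ u [MOD ℓ] := by
          intro ℓ hℓ
          have e1 : p ≡ c ℓ [MOD ℓ] := hp.2.2 ℓ hℓ
          exact e1.trans (hu ℓ hℓ).symm
        rw [Nat.modEq_iff_dvd]
        have h5 : ((∏ ℓ ∈ T, ℓ : ℕ) : ℤ) = ∏ ℓ ∈ T, (ℓ : ℤ) := by push_cast; rfl
        rw [h5]
        apply Finset.prod_dvd_of_coprime
        · intro a ha b hb hab
          exact Nat.isCoprime_iff_coprime.2 ((Nat.coprime_primes (hT a ha) (hT b hb)).2 hab)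
        · intro ℓ hℓ
          exact (Nat.modEq_iff_dvd.1 (h4 ℓ hℓ))
      exact h3
    apply Finset.card_le_card_of_injOn (fun p => p / M)
    · intro p hp
      have hp' := Finset.mem_coe.1 hp
      have hk := hkey p hp'
      rw [mem_filter, mem_Icc] at hp'
      apply Finset.mem_coe.2
      rw [mem_filter, mem_range]
      refine ⟨?_, ?_⟩
      · rw [hn]
        exact Nat.lt_succ_of_le (Nat.div_le_div_right hp'.1.2)
      · rw [← hk, Nat.mod_add_div' p M]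
        exact hp'.2.1
    · intro p hp q hq hpq
      have hk := hkey p (Finset.mem_coe.1 hp)
      have hk' := hkey q (Finset.mem_coe.1 hq)
      have hpq' : p / M = q / M := hpq
      rw [← Nat.mod_add_div p M, ← Nat.mod_add_div q M, hk, hk', hpq']
  have h3 := hC v M n hM0 hn2
  have hnR : (n : ℝ) ≤ 2 * N / M := by
    rw [hn]
    push_cast
    have e1 : ((N / M : ℕ) : ℝ) ≤ N / M := Nat.cast_div_le
    have e2 : (1 : ℝ) ≤ N / M := by
      rw [le_div_iff₀ (by linarith), one_mul]; exact_mod_cast hMleN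
    have e3 : 2 * (N : ℝ) / M = N / M + N / M := by ring
    rw [e3]; linarith
  have hnR' : (N : ℝ) / M ≤ n := by
    rw [hn, div_le_iff₀ (by linarith)]
    have : N < (N / M + 1) * M := by
      have := Nat.lt_div_mul_add (a := N) (b := M) hM0
      rw [Nat.add_mul, one_mul]
      exact this
    exact_mod_cast this.le
  have hlogN : 0 < Real.log N := Real.log_pos (by linarith)
  have hlogn : 1 / 2 * Real.log N ≤ Real.log n := by
    have e1 : Real.log ((N : ℝ) / M) ≤ Real.log n :=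
      Real.log_le_log (by positivity) hnR'
    rw [Real.log_div (by positivity) (by positivity)] at e1
    have e2 := Real.log_le_log (by positivity) hMNR
    rw [Real.log_pow] at e2
    push_cast at e2
    linarith
  have hpi := Pool.Agent.H901R3.MS.W_SPX.pi_lower N hN16
  have h4 : C * ((M : ℝ) / (Nat.totient M : ℝ)) * n / Real.log n ≤
      8 * C * (Nat.primeCounting N : ℝ) / Nat.totient M := by
    calc C * ((M : ℝ) / (Nat.totient M : ℝ)) * n / Real.log n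
        ≤ C * ((M : ℝ) / (Nat.totient M : ℝ)) * (2 * N / M) / (1 / 2 * Real.log N) := by
          gcongr
      _ = 8 * C * (1 / 2 * (N / Real.log N)) / Nat.totient M := by
          field_simp
          ring
      _ ≤ 8 * C * (Nat.primeCounting N : ℝ) / Nat.totient M := by
          gcongr
  rw [← hφ]
  have h5 : (((Icc 1 N).filter (fun p : ℕ => p.Prime ∧ ∀ ℓ ∈ T, p % ℓ = c ℓ % ℓ)).card : ℝ) ≤
      (((Finset.range n).filter (fun k => (v + k * M).Prime)).card : ℝ) := by exact_mod_cast h2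
  exact h5.trans (h3.trans h4)

open Classical in
/-- the number of tuples of primes in a product set of residue classes -/
theorem tuple_count2 : ∃ C₁ : ℝ, 1 ≤ C₁ ∧ ∀ (k : ℕ) (T : Finset ℕ), (∀ ℓ ∈ T, ℓ.Prime) →
    ∀ N : Fin k → ℕ, (∀ i, 16 ≤ N i ∧ (∏ ℓ ∈ T, ℓ) ^ 2 ≤ N i) →
      ∀ (P : ℕ → Finset (Fin k → ℕ)) (θ : ℝ), 0 ≤ θ →
      (∀ ℓ ∈ T, ∀ v ∈ P ℓ, ∀ i, Nat.Coprime (v i) ℓ) →
      (∀ ℓ ∈ T, ((P ℓ).card : ℝ) ≤ θ * ((ℓ : ℝ) - 1) ^ k) →
      (((Fintype.piFinset (fun i => PR (N i))).filter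
        (fun p => ∀ ℓ ∈ T, (fun i => p i % ℓ) ∈ P ℓ)).card : ℝ) ≤
        C₁ ^ k * θ ^ T.card * ∏ i, (Nat.primeCounting (N i) : ℝ) := by
  obtain ⟨C₁, hC₁1, hC₁⟩ := class_bound2
  refine ⟨C₁, hC₁1, fun k T hT N hN P θ hθ hP hcard => ?_⟩
  set cf : (∀ ℓ ∈ T, Fin k → ℕ) → Fin k → ℕ → ℕ := fun f i ℓ => if h : ℓ ∈ T then f ℓ h i else 1
    with hcf
  set F : (∀ ℓ ∈ T, Fin k → ℕ) → Finset (Fin k → ℕ) := fun f =>
    Fintype.piFinset (fun i => (Icc 1 (N i)).filter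
      (fun p : ℕ => p.Prime ∧ ∀ ℓ ∈ T, p % ℓ = cf f i ℓ % ℓ)) with hF
  have hsub : ((Fintype.piFinset (fun i => PR (N i))).filter
        (fun p => ∀ ℓ ∈ T, (fun i => p i % ℓ) ∈ P ℓ)) ⊆ (T.pi P).biUnion F := by
    intro p hp
    rw [mem_filter, Fintype.mem_piFinset] at hp
    rw [mem_biUnion]
    refine ⟨fun ℓ _ i => p i % ℓ, ?_, ?_⟩
    · rw [Finset.mem_pi]
      intro ℓ hℓ
      exact hp.2 ℓ hℓ
    · rw [hF, Fintype.mem_piFinset]
      intro i
      have h1 := hp.1 i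
      rw [PR, mem_filter] at h1
      rw [mem_filter]
      refine ⟨h1.1, h1.2, fun ℓ hℓ => ?_⟩
      simp only [hcf, hℓ, dif_pos, Nat.mod_mod]
  have hprod0 : 0 < ∏ ℓ ∈ T, ((ℓ : ℝ) - 1) := by
    apply Finset.prod_pos
    intro ℓ hℓ
    have : (1 : ℝ) < ℓ := by exact_mod_cast (hT ℓ hℓ).one_lt
    linarith
  have hFcard : ∀ f ∈ T.pi P, ((F f).card : ℝ) ≤
      ∏ i, (C₁ * (Nat.primeCounting (N i) : ℝ) / ∏ ℓ ∈ T, ((ℓ : ℝ) - 1)) := by
    intro f hf
    rw [hF, Fintype.card_piFinset]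
    push_cast
    apply Finset.prod_le_prod (fun _ _ => Nat.cast_nonneg _)
    intro i _
    apply hC₁ T hT (N i) (hN i).1 (hN i).2 (cf f i)
    intro ℓ hℓ
    simp only [hcf, hℓ, dif_pos]
    exact hP ℓ hℓ _ (Finset.mem_pi.1 hf ℓ hℓ) i
  have h1 : (((Fintype.piFinset (fun i => PR (N i))).filter
        (fun p => ∀ ℓ ∈ T, (fun i => p i % ℓ) ∈ P ℓ)).card : ℝ) ≤
      ∑ f ∈ T.pi P, ((F f).card : ℝ) := by
    have := (Finset.card_le_card hsub).trans Finset.card_biUnion_le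
    exact_mod_cast this
  refine h1.trans ((Finset.sum_le_sum hFcard).trans ?_)
  rw [Finset.sum_const, nsmul_eq_mul, Finset.card_pi]
  have h2 : ((∏ ℓ ∈ T, (P ℓ).card : ℕ) : ℝ) ≤ θ ^ T.card * (∏ ℓ ∈ T, ((ℓ : ℝ) - 1)) ^ k := by
    push_cast
    calc ∏ ℓ ∈ T, ((P ℓ).card : ℝ) ≤ ∏ ℓ ∈ T, (θ * ((ℓ : ℝ) - 1) ^ k) :=
          Finset.prod_le_prod (fun _ _ => Nat.cast_nonneg _) hcard
      _ = θ ^ T.card * (∏ ℓ ∈ T, ((ℓ : ℝ) - 1)) ^ k := by
          rw [Finset.prod_mul_distrib, Finset.prod_const, Finset.prod_pow]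
  have h3 : ∏ i : Fin k, (C₁ * (Nat.primeCounting (N i) : ℝ) / ∏ ℓ ∈ T, ((ℓ : ℝ) - 1)) =
      C₁ ^ k * (∏ i, (Nat.primeCounting (N i) : ℝ)) / (∏ ℓ ∈ T, ((ℓ : ℝ) - 1)) ^ k := by
    rw [Finset.prod_div_distrib, Finset.prod_mul_distrib, Finset.prod_const, Finset.prod_const,
      Finset.card_univ, Fintype.card_fin]
  rw [h3]
  have h4 : 0 ≤ C₁ ^ k * (∏ i, (Nat.primeCounting (N i) : ℝ)) /
      (∏ ℓ ∈ T, ((ℓ : ℝ) - 1)) ^ k := by
    positivity
  refine (mul_le_mul_of_nonneg_right h2 h4).trans (le_of_eq ?_)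
  field_simp

open Classical in
/-- few tuples have an entry in a given finite set -/
theorem excl_count2 {k : ℕ} (E : Finset ℕ) (ε : ℝ) (hε : 0 < ε) (N : Fin k → ℕ)
    (h : ∀ i, (E.card : ℝ) * k ≤ ε * Nat.primeCounting (N i)) :
      (((Fintype.piFinset (fun i => PR (N i))).filter (fun p => ∃ i, p i ∈ E)).card : ℝ) ≤
        ε * ∏ i, (Nat.primeCounting (N i) : ℝ) := by
  have hsub : ((Fintype.piFinset (fun i => PR (N i))).filter (fun p => ∃ i, p i ∈ E)) ⊆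
      (univ : Finset (Fin k)).biUnion (fun i =>
        Fintype.piFinset (fun j => if j = i then E else PR (N j))) := by
    intro p hp
    rw [mem_filter, Fintype.mem_piFinset] at hp
    obtain ⟨i, hi⟩ := hp.2
    rw [mem_biUnion]
    refine ⟨i, mem_univ _, ?_⟩
    rw [Fintype.mem_piFinset]
    intro j
    by_cases hj : j = i
    · rw [if_pos hj, hj]; exact hi
    · rw [if_neg hj]; exact hp.1 j
  have h1 : (((Fintype.piFinset (fun i => PR (N i))).filter (fun p => ∃ i, p i ∈ E)).card : ℝ) ≤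
      ∑ i : Fin k, ((Fintype.piFinset (fun j => if j = i then E else PR (N j))).card : ℝ) := by
    have := (Finset.card_le_card hsub).trans Finset.card_biUnion_le
    exact_mod_cast this
  refine h1.trans ?_
  rcases Nat.eq_zero_or_pos k with hk | hk
  · subst hk
    simp only [Finset.univ_eq_empty, Finset.sum_empty, Finset.prod_empty, mul_one]
    exact hε.le
  have hkR : (0 : ℝ) < k := by exact_mod_cast hk
  have h2 : ∀ i : Fin k, ((Fintype.piFinset (fun j => if j = i then E else PR (N j))).card : ℝ) ≤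
      ε / k * ∏ i, (Nat.primeCounting (N i) : ℝ) := by
    intro i
    rw [Fintype.card_piFinset]
    push_cast
    rw [← Finset.mul_prod_erase univ _ (mem_univ i), ← Finset.mul_prod_erase univ _ (mem_univ i),
      if_pos rfl, ← mul_assoc]
    have e1 : ∏ x ∈ univ.erase i, (((if x = i then E else PR (N x)).card : ℕ) : ℝ) =
        ∏ x ∈ univ.erase i, (Nat.primeCounting (N x) : ℝ) := by
      apply Finset.prod_congr rfl
      intro x hx
      rw [if_neg (Finset.ne_of_mem_erase hx), card_PR]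
    rw [e1]
    apply mul_le_mul_of_nonneg_right _ (Finset.prod_nonneg fun _ _ => Nat.cast_nonneg _)
    rw [div_mul_eq_mul_div, le_div_iff₀ hkR]
    exact h i
  refine (Finset.sum_le_sum fun i _ => h2 i).trans (le_of_eq ?_)
  rw [Finset.sum_const, Finset.card_univ, Fintype.card_fin, nsmul_eq_mul]
  field_simp

end Pool.Agent.TH193.RS
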