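import Mathlib

/-!
The descent: if `a ± b = c C ^ m` with `a, b` composed of the primes `p_i` and `c` composed of the `p_i`
and of primes at most `K` is only possible for `m`-th powers `a`, `b`, then it is impossible.
-/

set_option autoImplicit false

namespace Pool.Agent.TH193.RS

open Finset

/-- all prime divisors of `a` are among the `p i` -/
def Supp {k : ℕ} (p : Fin k → ℕ) (a : ℕ) : Prop := ∀ r : ℕ, r.Prime → r ∣ a → ∃ i, r = p i

/-- all prime divisors of `c` are at most `K` or among the `p i` -/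
def SM {k : ℕ} (K : ℕ) (p : Fin k → ℕ) (c : ℕ) : Prop :=
  ∀ r : ℕ, r.Prime → r ∣ c → r ≤ K ∨ ∃ i, r = p i

/-- sums and differences of coprime numbers composed of the `p_i` are of the form `c C ^ m` only if
both numbers are `m`-th powers -/
def Good {k : ℕ} (K m : ℕ) (p : Fin k → ℕ) : Prop :=
  ∀ a b c C : ℕ, 0 < a → 0 < b → a.Coprime b → Supp p a → Supp p b → 0 < c → SM K p c → 0 < C →
    (a = b + c * C ^ m ∨ a + b = c * C ^ m) → (∃ A, a = A ^ m) ∧ ∃ B, b = B ^ m

theorem split {n m : ℕ} (hn : n ≠ 0) (Bad : ℕ → Prop)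
    (h : ∀ r : ℕ, r.Prime → r ∣ n → ¬ Bad r → m ∣ n.factorization r) :
    ∃ c C : ℕ, 0 < c ∧ 0 < C ∧ n = c * C ^ m ∧ ∀ r : ℕ, r.Prime → r ∣ c → Bad r := by
  classical
  refine ⟨∏ r ∈ n.primeFactors.filter Bad, r ^ n.factorization r,
    ∏ r ∈ n.primeFactors.filter (fun r => ¬ Bad r), r ^ (n.factorization r / m), ?_, ?_, ?_, ?_⟩
  · apply Finset.prod_pos
    intro r hr
    exact pow_pos (Nat.prime_of_mem_primeFactors (Finset.mem_filter.1 hr).1).pos _
  · apply Finset.prod_pos
    intro r hr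
    exact pow_pos (Nat.prime_of_mem_primeFactors (Finset.mem_filter.1 hr).1).pos _
  · rw [← Finset.prod_pow]
    have e1 : ∏ r ∈ n.primeFactors.filter (fun r => ¬ Bad r), (r ^ (n.factorization r / m)) ^ m =
        ∏ r ∈ n.primeFactors.filter (fun r => ¬ Bad r), r ^ n.factorization r := by
      apply Finset.prod_congr rfl
      intro r hr
      rw [Finset.mem_filter] at hr
      rw [← pow_mul, Nat.div_mul_cancel]
      exact h r (Nat.prime_of_mem_primeFactors hr.1) (Nat.dvd_of_mem_primeFactors hr.1) hr.2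
    rw [e1, Finset.prod_filter_mul_prod_filter_not]
    conv_lhs => rw [← Nat.prod_factorization_pow_eq_self hn]
    rw [Finsupp.prod, Nat.support_factorization]
  · intro r hr hd
    rw [hr.prime.dvd_finsetProd_iff] at hd
    obtain ⟨q, hq, hd⟩ := hd
    rw [Finset.mem_filter] at hq
    have h1 : r = q := (Nat.prime_dvd_prime_iff_eq hr (Nat.prime_of_mem_primeFactors hq.1)).1
      (hr.dvd_of_dvd_pow hd)
    rw [h1]; exact hq.2

theorem factorization_eq {r n : ℕ} (hr : r.Prime) (hn : n ≠ 0) :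
    ((n.factorization r : ℕ) : ℕ∞) = emultiplicity (r : ℤ) (n : ℤ) := by
  have : Fact r.Prime := ⟨hr⟩
  rw [Int.natCast_emultiplicity, Nat.factorization_def n hr, padicValNat_eq_emultiplicity hn]

/-- the valuation of `x - y` -/
theorem dvd_fact {m r D c C : ℕ} (hm : m.Prime) (x y : ℤ) (hxy : IsCoprime x y) (hr : r.Prime)
    (hrm : r ≠ m) (hD : D ≠ 0) (hc : c ≠ 0) (hC : C ≠ 0) (hDx : (D : ℤ) = x - y)
    (heq : x ^ m - y ^ m = ((c * C ^ m : ℕ) : ℤ)) (hrD : r ∣ D) (hrc : ¬ r ∣ c) :
    m ∣ D.factorization r := by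
  have hrp : Prime (r : ℤ) := Nat.prime_iff_prime_int.1 hr
  have h1 : (r : ℤ) ∣ x - y := by rw [← hDx]; exact_mod_cast hrD
  have h2 : ¬ (r : ℤ) ∣ x := by
    intro hx
    have hy : (r : ℤ) ∣ y := by
      have := dvd_sub hx h1
      simpa using this
    exact hrp.not_isUnit (hxy.isUnit_of_dvd' hx hy)
  have h3 : ¬ (r : ℤ) ∣ (m : ℤ) := by
    intro h
    have h' : r ∣ m := by exact_mod_cast h
    exact hrm ((Nat.prime_dvd_prime_iff_eq hr hm).1 h')
  have h4 := emultiplicity_pow_sub_pow_of_prime hrp h1 h2 h3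
  rw [heq, ← hDx, ← factorization_eq hr (mul_ne_zero hc (pow_ne_zero m hC)),
    ← factorization_eq hr hD] at h4
  have h5 : (c * C ^ m).factorization r = D.factorization r := by exact_mod_cast h4
  rw [← h5, Nat.factorization_mul hc (pow_ne_zero m hC), Nat.factorization_pow]
  simp only [Finsupp.coe_add, Pi.add_apply, Finsupp.coe_smul, Pi.smul_apply, smul_eq_mul]
  rw [Nat.factorization_eq_zero_of_not_dvd hrc, zero_add]
  exact dvd_mul_right _ _

theorem descent {k K m : ℕ} (hm : m.Prime) (hmK : m ≤ K) (p : Fin k → ℕ) (hG : Good K m p) :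
    ∀ n a b c C : ℕ, a + b = n → 0 < a → 0 < b → a.Coprime b → Supp p a → Supp p b → 1 < a * b →
      0 < c → SM K p c → 0 < C → ¬ (a = b + c * C ^ m) ∧ (Odd m → ¬ (a + b = c * C ^ m)) := by
  intro n
  induction n using Nat.strong_induction_on with
  | _ n ih =>
    intro a b c C hn ha hb hab hsa hsb h1 hc hsc hC
    have hm2 := hm.two_le
    have hstep : ∀ A B : ℕ, a = A ^ m → b = B ^ m → 0 < A ∧ 0 < B ∧ A.Coprime B ∧ Supp p A ∧
        Supp p B ∧ 1 < A * B ∧ A + B < n := by
      intro A B hA hB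
      have hA0 : 0 < A := by
        rcases Nat.eq_zero_or_pos A with h | h
        · rw [h, zero_pow hm.ne_zero] at hA; omega
        · exact h
      have hB0 : 0 < B := by
        rcases Nat.eq_zero_or_pos B with h | h
        · rw [h, zero_pow hm.ne_zero] at hB; omega
        · exact h
      have hcop : A.Coprime B := by
        rw [hA, hB] at hab
        exact (Nat.coprime_pow_left_iff hm.pos _ _).1 ((Nat.coprime_pow_right_iff hm.pos _ _).1 hab)
      have hAB : 1 < A * B := by
        by_contra hcon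
        have h2 : A * B = 1 := by
          have : 0 < A * B := Nat.mul_pos hA0 hB0
          omega
        have h3 : a * b = 1 := by rw [hA, hB, ← mul_pow, h2, one_pow]
        omega
      refine ⟨hA0, hB0, hcop, fun r hr hd => hsa r hr (by rw [hA]; exact dvd_pow hd hm.ne_zero),
        fun r hr hd => hsb r hr (by rw [hB]; exact dvd_pow hd hm.ne_zero), hAB, ?_⟩
      have hAm : A ≤ A ^ m := Nat.le_self_pow hm.ne_zero A
      have hBm : B ≤ B ^ m := Nat.le_self_pow hm.ne_zero B
      rcases Nat.lt_or_ge 1 A with hA1 | hA1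
      · have : A < A ^ m := by
          calc A = A ^ 1 := (pow_one A).symm
            _ < A ^ m := Nat.pow_lt_pow_right hA1 (by omega)
        omega
      · have hA1' : A = 1 := by omega
        have hB1 : 1 < B := by rw [hA1', one_mul] at hAB; exact hAB
        have : B < B ^ m := by
          calc B = B ^ 1 := (pow_one B).symm
            _ < B ^ m := Nat.pow_lt_pow_right hB1 (by omega)
        omega
    constructor
    · intro heq
      obtain ⟨⟨A, hA⟩, B, hB⟩ := hG a b c C ha hb hab hsa hsb hc hsc hC (Or.inl heq)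
      obtain ⟨hA0, hB0, hcop, hsA, hsB, hAB, hlt⟩ := hstep A B hA hB
      have hpow : B ^ m < A ^ m := by
        rw [← hA, ← hB, heq]
        have : 0 < c * C ^ m := Nat.mul_pos hc (pow_pos hC m)
        omega
      have hBA : B < A := lt_of_pow_lt_pow_left₀ m (Nat.zero_le _) hpow
      have hD : A - B ≠ 0 := by omega
      have hsp : ∃ c' C' : ℕ, 0 < c' ∧ 0 < C' ∧ A - B = c' * C' ^ m ∧
          ∀ r : ℕ, r.Prime → r ∣ c' → (r ≤ K ∨ ∃ i, r = p i) := by
        apply split hD
        intro r hr hrD hbad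
        have hrc : ¬ r ∣ c := fun h => hbad (hsc r hr h)
        have hrm : r ≠ m := by
          intro h
          exact hbad (Or.inl (by omega))
        refine dvd_fact hm (A : ℤ) (B : ℤ) (Nat.isCoprime_iff_coprime.2 hcop) hr hrm hD
          (by omega) (by omega : C ≠ 0) (by push_cast [Nat.cast_sub hBA.le]; ring) ?_ hrD hrc
        rw [hA, hB] at heq
        have : (A : ℤ) ^ m = (B : ℤ) ^ m + ((c * C ^ m : ℕ) : ℤ) := by exact_mod_cast heq
        rw [this]; ring
      obtain ⟨c', C', hc', hC', he, hs'⟩ := hsp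
      exact (ih (A + B) hlt A B c' C' rfl hA0 hB0 hcop hsA hsB hAB hc' hs' hC').1 (by omega)
    · intro hodd heq
      obtain ⟨⟨A, hA⟩, B, hB⟩ := hG a b c C ha hb hab hsa hsb hc hsc hC (Or.inr heq)
      obtain ⟨hA0, hB0, hcop, hsA, hsB, hAB, hlt⟩ := hstep A B hA hB
      have hD : A + B ≠ 0 := by omega
      have hsp : ∃ c' C' : ℕ, 0 < c' ∧ 0 < C' ∧ A + B = c' * C' ^ m ∧
          ∀ r : ℕ, r.Prime → r ∣ c' → (r ≤ K ∨ ∃ i, r = p i) := by
        apply split hD
        intro r hr hrD hbad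
        have hrc : ¬ r ∣ c := fun h => hbad (hsc r hr h)
        have hrm : r ≠ m := by
          intro h
          exact hbad (Or.inl (by omega))
        refine dvd_fact hm (A : ℤ) (-(B : ℤ)) ?_ hr hrm hD
          (by omega) (by omega : C ≠ 0) (by push_cast; ring) ?_ hrD hrc
        · exact (Nat.isCoprime_iff_coprime.2 hcop).neg_right
        · rw [hA, hB] at heq
          have : (A : ℤ) ^ m + (B : ℤ) ^ m = ((c * C ^ m : ℕ) : ℤ) := by exact_mod_cast heq
          rw [hodd.neg_pow, ← this]; ring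
      obtain ⟨c', C', hc', hC', he, hs'⟩ := hsp
      exact (ih (A + B) hlt A B c' C' rfl hA0 hB0 hcop hsA hsB hAB hc' hs' hC').2 hodd he

/-- sums and squares -/
theorem sum_sq {k K : ℕ} (p : Fin k → ℕ) (hp2 : ∀ i, p i ≠ 2) (hG : Good K 2 p)
    (a b c C : ℕ) (ha : 0 < a) (hb : 0 < b) (hab : a.Coprime b) (hsa : Supp p a) (hsb : Supp p b)
    (hc : 0 < c) (hsc : SM K p c) (hC : 0 < C) (hodd : Odd c) : ¬ (a + b = c * C ^ 2) := by
  intro heq
  obtain ⟨⟨A, hA⟩, B, hB⟩ := hG a b c C ha hb hab hsa hsb hc hsc hC (Or.inr heq)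
  have h4 : ∀ x X : ℕ, x = X ^ 2 → Supp p x → x % 4 = 1 := by
    intro x X hx hs
    have hX : X % 2 = 1 := by
      by_contra hcon
      have h2 : 2 ∣ X := by omega
      obtain ⟨i, hi⟩ := hs 2 Nat.prime_two (by rw [hx]; exact dvd_pow h2 (by norm_num))
      exact hp2 i hi.symm
    have h3 : X % 4 = 1 ∨ X % 4 = 3 := by omega
    rw [hx, Nat.pow_mod]
    rcases h3 with h | h <;> rw [h]
  have ha4 := h4 a A hA hsa
  have hb4 := h4 b B hB hsb
  rcases Nat.even_or_odd C with hCe | hCo
  · obtain ⟨e, he⟩ := hCe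
    have : c * C ^ 2 = 4 * (c * e ^ 2) := by rw [he]; ring
    omega
  · have h5 : Odd (c * C ^ 2) := hodd.mul (hCo.pow)
    rw [← heq] at h5
    have := Nat.odd_iff.1 h5
    omega

end Pool.Agent.TH193.RS
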