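import Mathlib

/-!
The local step: for random units `g_1, …, g_k` modulo a prime `ℓ` with `m ^ 3 ∣ ℓ - 1`, the value
`g ^ α ± g ^ β` is of the form `κ g ^ γ t ^ m` with probability at most `13 / 16`, unless all
exponents in `α`, `β` are divisible by `m`. The proof compares `g` and `g⁻¹`.
-/

set_option autoImplicit false

namespace Pool.Agent.TH193.RS

open Finset

/-- the monomial `∏ g_i ^ e_i` -/
def mon {G : Type} [CommMonoid G] {k : ℕ} (e : Fin k → ℕ) (g : Fin k → G) : G := ∏ i, g i ^ e i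

theorem mon_mul {G : Type} [CommMonoid G] {k : ℕ} (e : Fin k → ℕ) (g h : Fin k → G) :
    mon e (g * h) = mon e g * mon e h := by
  simp [mon, mul_pow, Finset.prod_mul_distrib]

theorem mon_one {G : Type} [CommMonoid G] {k : ℕ} (e : Fin k → ℕ) :
    mon e (1 : Fin k → G) = 1 := by
  simp [mon]

/-- the monomial as a homomorphism -/
def monHom {G : Type} [CommMonoid G] {k : ℕ} (e : Fin k → ℕ) : (Fin k → G) →* G where
  toFun := mon e
  map_one' := mon_one e
  map_mul' := mon_mul e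

theorem mon_inv {G : Type} [CommGroup G] {k : ℕ} (e : Fin k → ℕ) (g : Fin k → G) :
    mon e g⁻¹ = (mon e g)⁻¹ := map_inv (monHom e) g

theorem mon_single {G : Type} [CommMonoid G] {k : ℕ} (e : Fin k → ℕ) (i : Fin k) (w : G) :
    mon e (Pi.mulSingle i w) = w ^ e i := by
  unfold mon
  rw [Finset.prod_eq_single i]
  · simp
  · intro j _ hj
    rw [Pi.mulSingle_eq_of_ne hj, one_pow]
  · intro h; exact absurd (Finset.mem_univ _) h

/-- comparing `g` and `g⁻¹` -/
theorem two_mul_card_le {G : Type} [CommGroup G] [Fintype G] [DecidableEq G] (P A B : Finset G)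
    (h : ∀ g, g ∈ P → g⁻¹ ∈ P → g ∈ A ∨ g ∈ B) : 2 * P.card ≤ Fintype.card G + A.card + B.card := by
  set P' : Finset G := P.map (Equiv.inv G).toEmbedding with hP'
  have h1 : P'.card = P.card := Finset.card_map _
  have h2 := Finset.card_union_add_card_inter P P'
  have h3 : (P ∪ P').card ≤ Fintype.card G := Finset.card_le_univ _
  have h4 : (P ∩ P').card ≤ (A ∪ B).card := by
    apply Finset.card_le_card
    intro g hg
    rw [Finset.mem_inter] at hg
    rw [Finset.mem_union]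
    apply h g hg.1
    have := hg.2
    rw [hP', Finset.mem_map] at this
    obtain ⟨x, hx, hxg⟩ := this
    have : g⁻¹ = x := by rw [← hxg]; simp
    rw [this]; exact hx
  have h5 := Finset.card_union_le A B
  omega

/-- fibres of a homomorphism are small when the image contains an element of large order -/
theorem fibre_le {G H : Type} [CommGroup G] [Fintype G] [DecidableEq G] [CommGroup H]
    [DecidableEq H] (f : G →* H) (g₀ : G) (n : ℕ) (hn : n ≤ orderOf (f g₀)) (y : H) :
    n * (univ.filter (fun g : G => f g = y)).card ≤ Fintype.card G := by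
  have h1 : ((Finset.range n) ×ˢ (univ.filter (fun g : G => f g = y))).card ≤
      (univ : Finset G).card := by
    apply Finset.card_le_card_of_injOn (fun x => x.2 * g₀ ^ x.1)
    · intro x _; exact Finset.mem_coe.2 (Finset.mem_univ _)
    · intro x hx x' hx' he
      simp only [Finset.coe_product, Set.mem_prod, Finset.mem_coe, Finset.mem_range,
        Finset.mem_filter, Finset.mem_univ, true_and] at hx hx'
      have he' : x.2 * g₀ ^ x.1 = x'.2 * g₀ ^ x'.1 := he
      have e1 := congrArg f he'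
      rw [map_mul, map_mul, map_pow, map_pow, hx.2, hx'.2] at e1
      have e2 := mul_left_cancel e1
      have e3 : x.1 = x'.1 :=
        pow_injOn_Iio_orderOf (Set.mem_Iio.2 (lt_of_lt_of_le hx.1 hn))
          (Set.mem_Iio.2 (lt_of_lt_of_le hx'.1 hn)) e2
      have e4 : x.2 = x'.2 := by
        rw [e3] at he'
        exact mul_right_cancel he'
      exact Prod.ext e3 e4
  rw [Finset.card_product, Finset.card_range] at h1
  exact h1

section

variable {ℓ : ℕ} [hℓ : Fact ℓ.Prime]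

theorem orderOf_pow_ge {m e : ℕ} (hm : m.Prime) (hd : m ^ 3 ∣ ℓ - 1) (he : ¬ m ∣ e)
    (w : (ZMod ℓ)ˣ) (hw : orderOf w = ℓ - 1) : m ^ 3 ≤ orderOf (w ^ e) := by
  have hpos : 0 < orderOf (w ^ e) := orderOf_pos _
  apply Nat.le_of_dvd hpos
  have h1 : (w ^ e) ^ orderOf (w ^ e) = 1 := pow_orderOf_eq_one _
  rw [← pow_mul] at h1
  have h2 : ℓ - 1 ∣ e * orderOf (w ^ e) := by
    rw [← hw]; exact orderOf_dvd_of_pow_eq_one h1
  have h3 : m ^ 3 ∣ e * orderOf (w ^ e) := hd.trans h2
  have h4 : Nat.Coprime (m ^ 3) e := Nat.Coprime.pow_left _ ((Nat.Prime.coprime_iff_not_dvd hm).2 he)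
  exact h4.dvd_of_dvd_mul_left h3

theorem even_div {m : ℕ} (hm : m.Prime) (hd : m ^ 3 ∣ ℓ - 1) : Even ((ℓ - 1) / m) := by
  have hp := hℓ.out
  have hl1 : 0 < ℓ - 1 := by have := hp.two_le; omega
  obtain ⟨q, hq⟩ := hd
  have e1 : (ℓ - 1) / m = m ^ 2 * q := by
    rw [hq]
    have : m ^ 3 * q = m * (m ^ 2 * q) := by ring
    rw [this, Nat.mul_div_cancel_left _ hm.pos]
  rw [e1]
  rcases hm.eq_two_or_odd' with h2 | hodd
  · subst h2
    exact ⟨2 * q, by ring⟩
  · have hl2 : ℓ ≠ 2 := by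
      rintro rfl
      have h3 : m ^ 3 ≤ 2 - 1 := Nat.le_of_dvd (by norm_num) ⟨q, hq⟩
      have h4 : 2 ^ 3 ≤ m ^ 3 := Nat.pow_le_pow_left hm.two_le 3
      omega
    have hev : Even (ℓ - 1) := (hp.even_sub_one hl2)
    rw [hq] at hev
    have hodd3 : Odd (m ^ 3) := hodd.pow
    have hq' : Even q := by
      rcases Nat.even_mul.1 hev with h | h
      · exact absurd h (Nat.not_even_iff_odd.2 hodd3)
      · exact h
    exact hq'.mul_left _

/-- The local bound. -/
theorem local_bound {k m : ℕ} (hm : m.Prime) (hd : m ^ 3 ∣ ℓ - 1) (α β γ : Fin k → ℕ)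
    (i₀ : Fin k) (h0 : α i₀ = 0 ∨ β i₀ = 0)
    (hi : ¬ m ∣ α i₀ ∨ ¬ m ∣ β i₀) (hγ : γ i₀ = 0) (s : ZMod ℓ) (hs : s = 1 ∨ s = -1)
    (κ : ZMod ℓ) (hκ : κ ≠ 0) :
    16 * (univ.filter (fun g : Fin k → (ZMod ℓ)ˣ => ∃ t : ZMod ℓ,
      ((mon α g : (ZMod ℓ)ˣ) : ZMod ℓ) + s * ((mon β g : (ZMod ℓ)ˣ) : ZMod ℓ) =
        κ * ((mon γ g : (ZMod ℓ)ˣ) : ZMod ℓ) * t ^ m)).card ≤ 13 * (ℓ - 1) ^ k := by
  classical
  have hp := hℓ.out
  have hl1 : 0 < ℓ - 1 := by have := hp.two_le; omega
  have hss : s * s = 1 := by rcases hs with rfl | rfl <;> ring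
  -- a generator
  obtain ⟨w, hw'⟩ := IsCyclic.exists_ofOrder_eq_natCard (α := (ZMod ℓ)ˣ)
  have hcard : Fintype.card (ZMod ℓ)ˣ = ℓ - 1 := ZMod.card_units ℓ
  have hw : orderOf w = ℓ - 1 := by rw [hw', Nat.card_eq_fintype_card, hcard]
  have hG : Fintype.card (Fin k → (ZMod ℓ)ˣ) = (ℓ - 1) ^ k := by
    rw [Fintype.card_fun, hcard, Fintype.card_fin]
  -- the unit `s`
  set su : (ZMod ℓ)ˣ := ⟨s, s, hss, hss⟩ with hsu
  have hsu2 : su ^ 2 = 1 := by
    ext; simp [hsu, pow_two, hss]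
  -- homomorphisms
  set ψ : (Fin k → (ZMod ℓ)ˣ) →* (ZMod ℓ)ˣ := monHom α / monHom β with hψ
  set φ : (Fin k → (ZMod ℓ)ˣ) →* (ZMod ℓ)ˣ :=
    (monHom α * monHom β / (monHom γ) ^ 2) ^ ((ℓ - 1) / m) with hφ
  have hψg : ∀ g, ψ g = mon α g / mon β g := fun g => rfl
  have hφg : ∀ g, φ g = (mon α g * mon β g / (mon γ g) ^ 2) ^ ((ℓ - 1) / m) := fun g => rfl
  set g₀ : Fin k → (ZMod ℓ)ˣ := Pi.mulSingle i₀ w with hg₀
  -- the exponent at `i₀`
  have hψ0 : 8 ≤ orderOf (ψ g₀) := by
    have h8 : 8 ≤ m ^ 3 := by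
      calc 8 = 2 ^ 3 := by norm_num
        _ ≤ m ^ 3 := Nat.pow_le_pow_left hm.two_le 3
    refine h8.trans ?_
    rw [hψg, hg₀, mon_single, mon_single]
    rcases h0 with h | h
    · rw [h, pow_zero, one_div, orderOf_inv]
      have : ¬ m ∣ β i₀ := by
        rcases hi with h' | h'
        · rw [h] at h'; exact absurd (dvd_zero m) h'
        · exact h'
      exact orderOf_pow_ge hm hd this w hw
    · rw [h, pow_zero, div_one]
      have : ¬ m ∣ α i₀ := by
        rcases hi with h' | h'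
        · exact h'
        · rw [h] at h'; exact absurd (dvd_zero m) h'
      exact orderOf_pow_ge hm hd this w hw
  have hmd : m ∣ ℓ - 1 := (dvd_pow_self m (by norm_num)).trans hd
  have hφ0 : 2 ≤ orderOf (φ g₀) := by
    have hne : φ g₀ ≠ 1 := by
      rw [hφg, hg₀, mon_single, mon_single, mon_single, hγ, pow_zero, one_pow, div_one, ← pow_add,
        ← pow_mul]
      intro h1
      have h2 : ℓ - 1 ∣ (α i₀ + β i₀) * ((ℓ - 1) / m) := by
        rw [← hw]; exact orderOf_dvd_of_pow_eq_one (by rw [hw]; exact h1)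
      obtain ⟨q, hq⟩ := hmd
      rw [hq, Nat.mul_div_cancel_left _ hm.pos] at h2
      have hq0 : 0 < q := by
        rcases Nat.eq_zero_or_pos q with h | h
        · rw [h, mul_zero] at hq; omega
        · exact h
      have h3 : m ∣ α i₀ + β i₀ := Nat.dvd_of_mul_dvd_mul_right hq0 h2
      rcases h0 with h | h
      · rw [h, zero_add] at h3
        rcases hi with h' | h'
        · rw [h] at h'; exact h' (dvd_zero m)
        · exact h' h3
      · rw [h, add_zero] at h3
        rcases hi with h' | h'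
        · exact h' h3
        · rw [h] at h'; exact h' (dvd_zero m)
    have hpos : 0 < orderOf (φ g₀) := orderOf_pos _
    have h1 : orderOf (φ g₀) ≠ 1 := fun h => hne (orderOf_eq_one_iff.1 h)
    omega
  have k1 := fibre_le ψ g₀ 8 hψ0 (-su)
  have k2 := fibre_le φ g₀ 2 hφ0 1
  rw [hG] at k1 k2
  have k3 := two_mul_card_le
    (univ.filter (fun g : Fin k → (ZMod ℓ)ˣ => ∃ t : ZMod ℓ,
      ((mon α g : (ZMod ℓ)ˣ) : ZMod ℓ) + s * ((mon β g : (ZMod ℓ)ˣ) : ZMod ℓ) =
        κ * ((mon γ g : (ZMod ℓ)ˣ) : ZMod ℓ) * t ^ m))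
    (univ.filter (fun g : Fin k → (ZMod ℓ)ˣ => ψ g = -su))
    (univ.filter (fun g : Fin k → (ZMod ℓ)ˣ => φ g = 1)) ?_
  · rw [hG] at k3
    omega
  · intro g hg hg'
    simp only [Finset.mem_filter, Finset.mem_univ, true_and] at hg hg' ⊢
    obtain ⟨t, ht⟩ := hg
    obtain ⟨t', ht'⟩ := hg'
    rw [mon_inv, mon_inv, mon_inv] at ht'
    set u := mon α g with hu
    set v := mon β g with hv
    set x := mon γ g with hx
    have hu0 : (u : ZMod ℓ) ≠ 0 := u.ne_zero
    have hv0 : (v : ZMod ℓ) ≠ 0 := v.ne_zero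
    have hx0 : (x : ZMod ℓ) ≠ 0 := x.ne_zero
    by_cases ht0 : t = 0
    · left
      rw [ht0, zero_pow hm.ne_zero, mul_zero] at ht
      rw [hψg, div_eq_iff_eq_mul]
      ext
      rw [Units.val_mul, Units.val_neg]
      have : ((su : (ZMod ℓ)ˣ) : ZMod ℓ) = s := rfl
      rw [this]
      linear_combination ht
    · right
      have key : s * (x : ZMod ℓ) ^ 2 * t ^ m = u * v * t' ^ m := by
        simp only [Units.val_inv_eq_inv_val] at ht'
        have e1 : (v : ZMod ℓ) + s * u = κ * (x : ZMod ℓ)⁻¹ * t' ^ m * (u * v) := by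
          rw [← ht']
          field_simp
        have e2 : s * ((u : ZMod ℓ) + s * v) = v + s * u := by
          linear_combination (v : ZMod ℓ) * hss
        rw [ht, e1] at e2
        have e3 : κ * (s * (x : ZMod ℓ) ^ 2 * t ^ m) = κ * (u * v * t' ^ m) := by
          have e4 : κ * (x : ZMod ℓ)⁻¹ * t' ^ m * (u * v) * x = κ * (u * v * t' ^ m) := by
            field_simp
          rw [← e4, ← e2]
          ring
        exact mul_left_cancel₀ hκ e3
      have ht'0 : t' ≠ 0 := by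
        intro h
        rw [h, zero_pow hm.ne_zero, mul_zero] at key
        have : s ≠ 0 := fun h => by rw [h, zero_mul] at hss; exact zero_ne_one hss
        exact (mul_ne_zero (mul_ne_zero this (pow_ne_zero 2 hx0)) (pow_ne_zero m ht0)) key
      set tu : (ZMod ℓ)ˣ := Units.mk0 t ht0 with htu
      set tu' : (ZMod ℓ)ˣ := Units.mk0 t' ht'0 with htu'
      have keyu : su * x ^ 2 * tu ^ m = u * v * tu' ^ m := by
        ext
        push_cast
        exact key
      have e5 : u * v / x ^ 2 = su * (tu / tu') ^ m := by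
        rw [div_eq_iff_eq_mul, div_pow]
        have : su * (tu ^ m / tu' ^ m) * x ^ 2 = su * x ^ 2 * tu ^ m / tu' ^ m := by
          rw [mul_assoc, mul_comm (tu ^ m / tu' ^ m), ← mul_assoc, mul_div_assoc]
        rw [this, keyu]
        simp
      rw [hφg, e5, mul_pow, ← pow_mul, Nat.mul_div_cancel' hmd]
      have e6 : (tu / tu') ^ (ℓ - 1) = 1 := by
        rw [← hcard]; exact pow_card_eq_one
      rw [e6, mul_one]
      obtain ⟨q, hq⟩ := even_div (ℓ := ℓ) hm hd
      rw [hq, ← two_mul, pow_mul, hsu2, one_pow]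

end

end Pool.Agent.TH193.RS
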