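import Pool.Agent.TH193.RS.Par

/-!
Assembly: almost all tuples of primes are good.
-/

set_option autoImplicit false

namespace Pool.Agent.TH193.RS

open Finset

theorem log_const : (1 : ℝ) / 10 ≤ -Real.log (13 / 16) := by
  have h1 : Real.log (13 / 16) ≤ 13 / 16 - 1 := Real.log_le_sub_one_of_pos (by norm_num)
  linarith

theorem numeric (k K : ℕ) (W κ : ℝ) (hW : 0 < W) (hκ : 0 < κ) : ∃ Y : ℕ, ∀ y : ℕ, Y ≤ y →
    ∀ L t : ℕ, (L : ℝ) ≤ ((y : ℝ) + 1) ^ ⌊(y : ℝ) ^ (3 / 4 : ℝ)⌋₊ → 0 < L →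
      κ * (y / Real.log y) ≤ (t : ℝ) + K → (L : ℝ) ^ (3 * k) * W * (13 / 16) ^ t ≤ 1 := by
  set c : ℝ := -Real.log (13 / 16) with hc
  have hc0 : 0 < c := by have := log_const; linarith
  set D : ℝ := |Real.log W + c * K| with hD
  have htend : Filter.Tendsto (fun y : ℕ => (y : ℝ) ^ (1 / 8 : ℝ)) Filter.atTop Filter.atTop :=
    (tendsto_rpow_atTop (by norm_num)).comp tendsto_natCast_atTop_atTop
  obtain ⟨Y, hY⟩ := (Filter.tendsto_atTop.1 htend (16 * (96 * k + D) / (c * κ))).exists_forall_of_atTop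
  refine ⟨max Y 2, fun y hy L t hL hL0 ht => ?_⟩
  have hy2 : 2 ≤ y := (le_max_right _ _).trans hy
  have hyR : (2 : ℝ) ≤ y := by exact_mod_cast hy2
  have hy0 : (0 : ℝ) < y := by linarith
  have hz := hY y ((le_max_left _ _).trans hy)
  have hLR : (0 : ℝ) < L := by exact_mod_cast hL0
  have hlogy : 0 < Real.log y := Real.log_pos (by linarith)
  -- logarithms
  have h1 : Real.log y ≤ 16 * (y : ℝ) ^ (1 / 16 : ℝ) := by
    have := Real.log_le_rpow_div hy0.le (show (0 : ℝ) < 1 / 16 by norm_num)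
    linarith
  have h2 : Real.log ((y : ℝ) + 1) ≤ 32 * (y : ℝ) ^ (1 / 16 : ℝ) := by
    have e1 : Real.log ((y : ℝ) + 1) ≤ Real.log ((y : ℝ) ^ (2 : ℕ)) :=
      Real.log_le_log (by linarith) (by nlinarith)
    rw [Real.log_pow] at e1
    push_cast at e1
    linarith
  have hLlog : Real.log L ≤ (y : ℝ) ^ (3 / 4 : ℝ) * (32 * (y : ℝ) ^ (1 / 16 : ℝ)) := by
    have e1 := Real.log_le_log hLR hL
    rw [Real.log_pow] at e1
    have e2 : ((⌊(y : ℝ) ^ (3 / 4 : ℝ)⌋₊ : ℕ) : ℝ) ≤ (y : ℝ) ^ (3 / 4 : ℝ) :=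
      Nat.floor_le (Real.rpow_nonneg hy0.le _)
    have e3 : 0 ≤ Real.log ((y : ℝ) + 1) := Real.log_nonneg (by linarith)
    calc Real.log L ≤ _ := e1
      _ ≤ (y : ℝ) ^ (3 / 4 : ℝ) * Real.log ((y : ℝ) + 1) := mul_le_mul_of_nonneg_right e2 e3
      _ ≤ _ := mul_le_mul_of_nonneg_left h2 (Real.rpow_nonneg hy0.le _)
  set u : ℝ := (y : ℝ) ^ (13 / 16 : ℝ) with hu
  have hu1 : 1 ≤ u := Real.one_le_rpow (by linarith) (by norm_num)
  have e4 : (y : ℝ) ^ (3 / 4 : ℝ) * (32 * (y : ℝ) ^ (1 / 16 : ℝ)) = 32 * u := by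
    have : (y : ℝ) ^ (3 / 4 : ℝ) * (y : ℝ) ^ (1 / 16 : ℝ) = u := by
      rw [hu, ← Real.rpow_add hy0]; norm_num
    rw [← this]; ring
  rw [e4] at hLlog
  have e5 : (y : ℝ) ^ (1 / 8 : ℝ) * u / 16 ≤ y / Real.log y := by
    rw [le_div_iff₀ hlogy]
    have e6 : (y : ℝ) ^ (1 / 8 : ℝ) * u * (y : ℝ) ^ (1 / 16 : ℝ) = y := by
      rw [hu, ← Real.rpow_add hy0, ← Real.rpow_add hy0]
      norm_num
    have e7 : 0 ≤ (y : ℝ) ^ (1 / 8 : ℝ) * u / 16 := by positivity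
    calc (y : ℝ) ^ (1 / 8 : ℝ) * u / 16 * Real.log y
        ≤ (y : ℝ) ^ (1 / 8 : ℝ) * u / 16 * (16 * (y : ℝ) ^ (1 / 16 : ℝ)) :=
          mul_le_mul_of_nonneg_left h1 e7
      _ = (y : ℝ) ^ (1 / 8 : ℝ) * u * (y : ℝ) ^ (1 / 16 : ℝ) := by ring
      _ = y := e6
  have e8 : (96 * k + D) * u ≤ c * ((t : ℝ) + K) := by
    have f1 : 16 * (96 * k + D) ≤ (y : ℝ) ^ (1 / 8 : ℝ) * (c * κ) := by
      rwa [div_le_iff₀ (by positivity)] at hz
    have f2 : c * κ * ((y : ℝ) ^ (1 / 8 : ℝ) * u / 16) ≤ c * ((t : ℝ) + K) := by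
      have : κ * ((y : ℝ) ^ (1 / 8 : ℝ) * u / 16) ≤ κ * (y / Real.log y) :=
        mul_le_mul_of_nonneg_left e5 hκ.le
      calc c * κ * ((y : ℝ) ^ (1 / 8 : ℝ) * u / 16) = c * (κ * ((y : ℝ) ^ (1 / 8 : ℝ) * u / 16)) := by
            ring
        _ ≤ c * ((t : ℝ) + K) := mul_le_mul_of_nonneg_left (this.trans ht) hc0.le
    have f3 : (96 * k + D) * u ≤ c * κ * ((y : ℝ) ^ (1 / 8 : ℝ) * u / 16) := by
      have := mul_le_mul_of_nonneg_right f1 (by linarith : 0 ≤ u / 16)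
      calc (96 * k + D) * u = 16 * (96 * k + D) * (u / 16) := by ring
        _ ≤ (y : ℝ) ^ (1 / 8 : ℝ) * (c * κ) * (u / 16) := this
        _ = _ := by ring
    exact f3.trans f2
  have hDu : Real.log W + c * K ≤ D * u := by
    have : D ≤ D * u := by
      have : 0 ≤ D := abs_nonneg _
      nlinarith
    exact (le_abs_self _).trans this
  have hpos : 0 < (L : ℝ) ^ (3 * k) * W * (13 / 16) ^ t := by positivity
  have hlog : Real.log ((L : ℝ) ^ (3 * k) * W * (13 / 16) ^ t) ≤ 0 := by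
    rw [Real.log_mul (by positivity) (by positivity), Real.log_mul (by positivity) hW.ne',
      Real.log_pow, Real.log_pow]
    have f1 : ((3 * k : ℕ) : ℝ) * Real.log L ≤ ((3 * k : ℕ) : ℝ) * (32 * u) :=
      mul_le_mul_of_nonneg_left hLlog (Nat.cast_nonneg _)
    push_cast at f1 ⊢
    have f2 : (t : ℝ) * Real.log (13 / 16) = -(c * t) := by rw [hc]; ring
    rw [f2]
    nlinarith
  by_contra hcon
  push Not at hcon
  have := Real.log_pos hcon
  linarith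

open Classical in
theorem bad_count (k K m : ℕ) (hm : m.Prime) (hmK : m ≤ K) (ε : ℝ) (hε : 0 < ε) : ∃ N₀ : ℕ,
    ∀ N : Fin k → ℕ, (∀ i, N₀ ≤ N i) →
      (((Fintype.piFinset (fun i => PR (N i))).filter (fun p => ¬ Good K m p)).card : ℝ) ≤
        ε * ∏ i, (Nat.primeCounting (N i) : ℝ) := by
  have hK : 1 ≤ K := hm.one_lt.le.trans hmK
  have hQ : 1 ≤ m ^ 3 := Nat.one_le_pow _ _ hm.pos
  obtain ⟨κ, hκ, Y₁, hY₁⟩ := sp (m ^ 3) hQ
  have hmR : (0 : ℝ) < m := by exact_mod_cast hm.pos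
  have hKR : (0 : ℝ) < K := by exact_mod_cast hK
  set W : ℝ := (m : ℝ) ^ (3 * k) * (2 * ((K : ℝ) ^ m) ^ K) * 2 ^ k * (2 / ε) with hW
  have hW0 : 0 < W := by positivity
  obtain ⟨Y₂, hY₂⟩ := numeric k K W κ hW0 hκ
  set y : ℕ := max Y₁ Y₂ with hy
  have hg := hY₁ y (le_max_left _ _)
  have hn := hY₂ y (le_max_right _ _)
  obtain ⟨L, hL1, hL2, hL3⟩ := Pool.Agent.H901R3.MS.t_LY y ⌊(y : ℝ) ^ (3 / 4 : ℝ)⌋₊
  set T : Finset ℕ := (GoodP (m ^ 3) y).filter (fun ℓ => K < ℓ) with hT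
  have hTp : ∀ ℓ ∈ T, ℓ.Prime ∧ ℓ - 1 ∣ m * L ∧ m ^ 3 ∣ ℓ - 1 ∧ K < ℓ := by
    intro ℓ hℓ
    rw [hT, mem_filter, GoodP, mem_filter, mem_Icc] at hℓ
    obtain ⟨⟨⟨h1, h2⟩, h3, h4, h5⟩, h6⟩ := hℓ
    refine ⟨h3, ?_, ?_, h6⟩
    · have : ℓ - 1 ∣ L := hL3 (ℓ - 1) (by have := h3.two_le; omega) (by omega) h5
      exact this.mul_left m
    · have : 1 ≡ ℓ [MOD m ^ 3] := by
        have h7 : ℓ ≡ 1 [MOD m ^ 3] := h4
        exact h7.symm
      exact (Nat.modEq_iff_dvd' h1).1 this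
  have hTcard : ((GoodP (m ^ 3) y).card : ℝ) ≤ (T.card : ℝ) + K := by
    have h1 : GoodP (m ^ 3) y ⊆ T ∪ Icc 1 K := by
      intro ℓ hℓ
      rw [mem_union]
      by_cases h : K < ℓ
      · left; rw [hT, mem_filter]; exact ⟨hℓ, h⟩
      · right
        have : ℓ.Prime := by
          rw [GoodP, mem_filter] at hℓ; exact hℓ.2.1
        rw [mem_Icc]; exact ⟨this.one_lt.le, by omega⟩
    have h2 := (Finset.card_le_card h1).trans (Finset.card_union_le _ _)
    rw [Nat.card_Icc, Nat.add_sub_cancel] at h2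
    exact_mod_cast h2
  have hnum := hn L T.card (by exact_mod_cast hL2) hL1 (hg.trans hTcard)
  obtain ⟨N₁, hN₁⟩ := tuple_count (k := k) T (fun ℓ hℓ => (hTp ℓ hℓ).1)
  obtain ⟨N₂, hN₂⟩ := excl_count (k := k) T (ε / 2) (by positivity)
  refine ⟨max N₁ N₂, fun N hN => ?_⟩
  have hA := hN₂ N (fun i => (le_max_right _ _).trans (hN i))
  have hB := hN₁ N (fun i => (le_max_left _ _).trans (hN i))
  set V : ℝ := ∏ i, (Nat.primeCounting (N i) : ℝ) with hV
  have hV0 : 0 ≤ V := Finset.prod_nonneg fun _ _ => Nat.cast_nonneg _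
  set F : Idx k → Finset (Fin k → ℕ) := fun x =>
    (Fintype.piFinset (fun i => PR (N i))).filter (fun p => ∀ ℓ ∈ T, (fun i => p i % ℓ) ∈
      Pz m x.1.1 x.1.2.1 x.1.2.2 x.2.1 x.2.2 ℓ) with hF
  have hFcard : ∀ x ∈ Params k K m (m * L), ((F x).card : ℝ) ≤ 2 ^ k * (13 / 16) ^ T.card * V := by
    intro x hx
    rw [Params] at hx
    obtain ⟨hx1, ⟨i₀, g1, g2, g3⟩, hx3⟩ := Finset.mem_filter.1 hx
    rw [mem_product, mem_product] at hx1
    have hs : x.2.1 = 1 ∨ x.2.1 = -1 := by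
      have := (Finset.mem_product.1 hx1.2).1
      simpa using this
    apply hB (fun ℓ => Pz m x.1.1 x.1.2.1 x.1.2.2 x.2.1 x.2.2 ℓ) (13 / 16) (by norm_num)
    · intro ℓ _ v hv i
      exact ((mem_Pz _ _ _ _ _ _ _).1 hv).1 i |>.2
    · intro ℓ hℓ
      obtain ⟨h1, h2, h3, h4⟩ := hTp ℓ hℓ
      apply Pz_card hm _ _ _ _ hs _ ℓ h1 h3 i₀ g1 g2 g3
      intro h
      have := hx3 ℓ h1 h
      omega
  have hsub : ((Fintype.piFinset (fun i => PR (N i))).filter (fun p => ¬ Good K m p)) ⊆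
      ((Fintype.piFinset (fun i => PR (N i))).filter (fun p => ∃ i, p i ∈ T)) ∪
        (Params k K m (m * L)).biUnion F := by
    intro p hp
    rw [mem_filter] at hp
    rw [mem_union]
    by_cases h : ∃ i, p i ∈ T
    · left; rw [mem_filter]; exact ⟨hp.1, h⟩
    · right
      push Not at h
      have hpp : ∀ i, (p i).Prime := by
        intro i
        have := (Fintype.mem_piFinset.1 hp.1) i
        rw [PR, mem_filter] at this
        exact this.2
      obtain ⟨x, hx, hxr⟩ := residues (k := k) (K := K) (m := m) (L := m * L) hm hK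
        (dvd_mul_right m L) (Nat.mul_pos hm.pos hL1) T
        (fun ℓ hℓ => ⟨(hTp ℓ hℓ).1, (hTp ℓ hℓ).2.1⟩) p hpp h hp.2
      rw [mem_biUnion]
      exact ⟨x, hx, by rw [hF, mem_filter]; exact ⟨hp.1, hxr⟩⟩
  have h1 : (((Fintype.piFinset (fun i => PR (N i))).filter (fun p => ¬ Good K m p)).card : ℝ) ≤
      ((((Fintype.piFinset (fun i => PR (N i))).filter (fun p => ∃ i, p i ∈ T)).card : ℕ) : ℝ) +
        ∑ x ∈ Params k K m (m * L), ((F x).card : ℝ) := by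
    have e1 := (Finset.card_le_card hsub).trans (Finset.card_union_le _ _)
    have e2 := Finset.card_biUnion_le (s := Params k K m (m * L)) (t := F)
    have e3 := e1.trans (Nat.add_le_add_left e2 _)
    exact_mod_cast e3
  have h2 : ∑ x ∈ Params k K m (m * L), ((F x).card : ℝ) ≤ ε / 2 * V := by
    calc ∑ x ∈ Params k K m (m * L), ((F x).card : ℝ)
        ≤ ∑ x ∈ Params k K m (m * L), 2 ^ k * (13 / 16) ^ T.card * V := Finset.sum_le_sum hFcard
      _ = ((Params k K m (m * L)).card : ℝ) * (2 ^ k * (13 / 16) ^ T.card * V) := by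
          rw [Finset.sum_const, nsmul_eq_mul]
      _ ≤ (((m * L : ℕ) : ℝ) ^ (3 * k) * (2 * ((K : ℝ) ^ m) ^ K)) *
            (2 ^ k * (13 / 16) ^ T.card * V) :=
          mul_le_mul_of_nonneg_right (Params_card k K m (m * L)) (by positivity)
      _ = ((L : ℝ) ^ (3 * k) * W * (13 / 16) ^ T.card) * (ε / 2 * V) := by
          have e : (2 / ε) * (ε / 2) = 1 := by field_simp
          calc (((m * L : ℕ) : ℝ) ^ (3 * k) * (2 * ((K : ℝ) ^ m) ^ K)) *
                (2 ^ k * (13 / 16) ^ T.card * V) =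
                (((m * L : ℕ) : ℝ) ^ (3 * k) * (2 * ((K : ℝ) ^ m) ^ K)) *
                (2 ^ k * (13 / 16) ^ T.card * V) * ((2 / ε) * (ε / 2)) := by rw [e, mul_one]
            _ = _ := by
                rw [hW, Nat.cast_mul, mul_pow]
                ring
      _ ≤ 1 * (ε / 2 * V) := mul_le_mul_of_nonneg_right hnum (by positivity)
      _ = ε / 2 * V := one_mul _
  linarith

/-- the equation has a solution with coprime `A`, `B` composed of the `p i` -/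
def Sol {k : ℕ} (K M : ℕ) (p : Fin k → ℕ) : Prop :=
  ∃ a b c C m : ℕ, 0 < a ∧ 0 < b ∧ a.Coprime b ∧ Supp p a ∧ Supp p b ∧ 1 < a * b ∧
    0 < c ∧ SM K p c ∧ 0 < C ∧ m.Prime ∧ m ≤ M ∧
    (a = b + c * C ^ m ∨ ((Odd m ∨ Odd c) ∧ a + b = c * C ^ m))

theorem not_sol {k K M : ℕ} (hMK : M ≤ K) (p : Fin k → ℕ) (hp2 : ∀ i, p i ≠ 2)
    (hG : ∀ m : ℕ, m.Prime → m ≤ M → Good K m p) : ¬ Sol K M p := by
  rintro ⟨a, b, c, C, m, ha, hb, hab, hsa, hsb, h1, hc, hsc, hC, hm, hmM, heq⟩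
  have hd := descent hm (hmM.trans hMK) p (hG m hm hmM) (a + b) a b c C rfl ha hb hab hsa hsb h1 hc
    hsc hC
  rcases heq with h | ⟨h2, h3⟩
  · exact hd.1 h
  · rcases hm.eq_two_or_odd' with hm2 | hodd
    · subst hm2
      rcases h2 with h2 | h2
      · exact absurd h2 (by decide)
      · exact sum_sq p hp2 (hG 2 hm hmM) a b c C ha hb hab hsa hsb hc hsc hC h2 h3
    · exact hd.2 hodd h3

open Classical in
theorem main (k K M : ℕ) (hMK : M ≤ K) (ε : ℝ) (hε : 0 < ε) : ∃ N₀ : ℕ,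
    ∀ N : Fin k → ℕ, (∀ i, N₀ ≤ N i) →
      (((Fintype.piFinset (fun i => PR (N i))).filter (fun p => Sol K M p)).card : ℝ) ≤
        ε * ∏ i, (Nat.primeCounting (N i) : ℝ) := by
  have hδ : 0 < ε / (2 * ((M : ℝ) + 1)) := by positivity
  have hb : ∀ m : ℕ, ∃ N₀ : ℕ, m.Prime → m ≤ M → ∀ N : Fin k → ℕ, (∀ i, N₀ ≤ N i) →
      (((Fintype.piFinset (fun i => PR (N i))).filter (fun p => ¬ Good K m p)).card : ℝ) ≤
        ε / (2 * ((M : ℝ) + 1)) * ∏ i, (Nat.primeCounting (N i) : ℝ) := by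
    intro m
    by_cases h : m.Prime ∧ m ≤ M
    · obtain ⟨N₀, hN₀⟩ := bad_count k K m h.1 (h.2.trans hMK) _ hδ
      exact ⟨N₀, fun _ _ => hN₀⟩
    · exact ⟨0, fun h1 h2 => absurd ⟨h1, h2⟩ h⟩
  choose N₁ hN₁ using hb
  obtain ⟨N₂, hN₂⟩ := excl_count (k := k) {2} (ε / 2) (by positivity)
  refine ⟨max N₂ ((range (M + 1)).sup N₁), fun N hN => ?_⟩
  set V : ℝ := ∏ i, (Nat.primeCounting (N i) : ℝ) with hV
  have hV0 : 0 ≤ V := Finset.prod_nonneg fun _ _ => Nat.cast_nonneg _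
  have hA := hN₂ N (fun i => (le_max_left _ _).trans (hN i))
  set S : Finset (Fin k → ℕ) := Fintype.piFinset (fun i => PR (N i)) with hS
  set I : Finset ℕ := (range (M + 1)).filter Nat.Prime with hI
  have hsub : S.filter (fun p => Sol K M p) ⊆ S.filter (fun p => ∃ i, p i ∈ ({2} : Finset ℕ)) ∪
      I.biUnion (fun m => S.filter (fun p => ¬ Good K m p)) := by
    intro p hp
    rw [mem_filter] at hp
    rw [mem_union]
    by_cases h2 : ∃ i, p i ∈ ({2} : Finset ℕ)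
    · left; rw [mem_filter]; exact ⟨hp.1, h2⟩
    · right
      push Not at h2
      by_contra hcon
      apply not_sol hMK p (fun i h => h2 i (by rw [h]; exact Finset.mem_singleton_self 2)) ?_ hp.2
      intro m hm hmM
      by_contra hG
      apply hcon
      rw [mem_biUnion]
      exact ⟨m, by rw [hI, mem_filter, mem_range]; exact ⟨by omega, hm⟩,
        by rw [mem_filter]; exact ⟨hp.1, hG⟩⟩
  have h1 : ((S.filter (fun p => Sol K M p)).card : ℝ) ≤
      (((S.filter (fun p => ∃ i, p i ∈ ({2} : Finset ℕ))).card : ℕ) : ℝ) +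
        ∑ m ∈ I, ((S.filter (fun p => ¬ Good K m p)).card : ℝ) := by
    have e1 := (Finset.card_le_card hsub).trans (Finset.card_union_le _ _)
    have e2 := Finset.card_biUnion_le (s := I) (t := fun m => S.filter (fun p => ¬ Good K m p))
    have e3 := e1.trans (Nat.add_le_add_left e2 _)
    exact_mod_cast e3
  have h2 : ∑ m ∈ I, ((S.filter (fun p => ¬ Good K m p)).card : ℝ) ≤ ε / 2 * V := by
    calc ∑ m ∈ I, ((S.filter (fun p => ¬ Good K m p)).card : ℝ)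
        ≤ ∑ m ∈ I, ε / (2 * ((M : ℝ) + 1)) * V := by
          apply Finset.sum_le_sum
          intro m hm
          rw [hI, mem_filter, mem_range] at hm
          apply hN₁ m hm.2 (by omega) N
          intro i
          exact ((Finset.le_sup (f := N₁) (mem_range.2 hm.1)).trans (le_max_right _ _)).trans (hN i)
      _ = (I.card : ℝ) * (ε / (2 * ((M : ℝ) + 1)) * V) := by rw [Finset.sum_const, nsmul_eq_mul]
      _ ≤ ((M : ℝ) + 1) * (ε / (2 * ((M : ℝ) + 1)) * V) := by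
          apply mul_le_mul_of_nonneg_right _ (by positivity)
          have : I.card ≤ M + 1 := (Finset.card_filter_le _ _).trans (by rw [Finset.card_range])
          exact_mod_cast this
      _ = ε / 2 * V := by field_simp
  linarith

end Pool.Agent.TH193.RS
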