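import Pool.Agent.TH193.RS.Main
import Pool.Agent.TH193.RS.Cnt2

/-!
The numerical estimate of the quantitative version.
-/

set_option autoImplicit false

namespace Pool.Agent.TH193.RS

open Finset

theorem log_const' : -Real.log (13 / 16) ≤ 1 := by
  have h1 : 1 - (13 / 16 : ℝ)⁻¹ ≤ Real.log (13 / 16) := Real.one_sub_inv_le_log_of_pos (by norm_num)
  have h2 : (1 : ℝ) - (13 / 16 : ℝ)⁻¹ = -(3 / 13) := by norm_num
  rw [h2] at h1
  linarith

theorem numeric2 (m : ℕ) (C₁ κ : ℝ) (hm : 1 ≤ m) (hC₁ : 1 ≤ C₁) (hκ : 0 < κ) :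
    ∃ c₁ : ℝ, 0 < c₁ ∧ c₁ ≤ 1 / 4 ∧ ∃ x₀ : ℝ, 1600 ≤ x₀ ∧ ∀ x : ℝ, x₀ ≤ x → ∀ k K y L t : ℕ,
      (k : ℝ) ≤ x ^ (1 / 10 : ℝ) → (K : ℝ) ≤ x ^ (1 / 10 : ℝ) → 1 ≤ K → x / 4 ≤ y → (y : ℝ) ≤ x →
      (L : ℝ) ≤ ((y : ℝ) + 1) ^ ⌊(y : ℝ) ^ (3 / 4 : ℝ)⌋₊ → 0 < L →
      κ * (y / Real.log y) ≤ (t : ℝ) + K →
      ((m * L : ℕ) : ℝ) ^ (3 * k) * (2 * ((K : ℝ) ^ m) ^ K) * C₁ ^ k * (13 / 16) ^ t ≤
        Real.exp (-c₁ * (x / Real.log x)) / 2 := by
  set c : ℝ := -Real.log (13 / 16) with hc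
  have hc0 : (1 : ℝ) / 10 ≤ c := log_const
  have hc1 : c ≤ 1 := log_const'
  have hmR : (1 : ℝ) ≤ m := by exact_mod_cast hm
  have hlogm : 0 ≤ Real.log m := Real.log_nonneg hmR
  have hlogC : 0 ≤ Real.log C₁ := Real.log_nonneg hC₁
  set C₂ : ℝ := 3 * Real.log m + 98 + m + Real.log C₁ with hC₂
  have hC₂0 : 0 < C₂ := by positivity
  set c₁ : ℝ := min (κ / 160) (1 / 4) with hc₁
  have hc₁0 : 0 < c₁ := lt_min (by positivity) (by norm_num)
  have htend : Filter.Tendsto (fun x : ℝ => x ^ (1 / 16 : ℝ)) Filter.atTop Filter.atTop :=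
    tendsto_rpow_atTop (by norm_num)
  obtain ⟨X, hX⟩ := (Filter.tendsto_atTop.1 htend
    (max (3200 * C₂ / κ) (40 * Real.log 2 / c₁))).exists_forall_of_atTop
  refine ⟨c₁, hc₁0, min_le_right _ _, max X 1600, le_max_right _ _, ?_⟩
  intro x hx k K y L t hk hK hK1 hyl hyu hL hL0 ht
  have hx1600 : (1600 : ℝ) ≤ x := (le_max_right _ _).trans hx
  have hx0 : 0 < x := by linarith
  have hx1 : 1 ≤ x := by linarith
  have hXx := hX x ((le_max_left _ _).trans hx)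
  have hXx1 : 3200 * C₂ / κ ≤ x ^ (1 / 16 : ℝ) := (le_max_left _ _).trans hXx
  have hXx2 : 40 * Real.log 2 / c₁ ≤ x ^ (1 / 16 : ℝ) := (le_max_right _ _).trans hXx
  have hlogx1 : 1 ≤ Real.log x := by
    rw [Real.le_log_iff_exp_le hx0]
    have := Real.exp_one_lt_d9
    linarith
  have hlogx0 : 0 < Real.log x := by linarith
  have hy0 : (0 : ℝ) < y := by linarith
  have hy2 : (2 : ℝ) ≤ y := by linarith
  have hlogy : 0 < Real.log y := Real.log_pos (by linarith)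
  have hlogyx : Real.log y ≤ Real.log x := Real.log_le_log hy0 hyu
  have hKR : (1 : ℝ) ≤ K := by exact_mod_cast hK1
  have hLR : (0 : ℝ) < L := by exact_mod_cast hL0
  -- main term
  set R : ℝ := x / Real.log x with hR
  have hR0 : 0 < R := by positivity
  have hyR : R / 4 ≤ y / Real.log y := by
    rw [hR, div_div, div_le_div_iff₀ (by positivity) hlogy]
    have : x * Real.log y ≤ (4 * y) * Real.log x := by
      apply mul_le_mul (by linarith) hlogyx hlogy.le (by linarith)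
    linarith
  have htl : κ * (R / 4) ≤ (t : ℝ) + K := (mul_le_mul_of_nonneg_left hyR hκ.le).trans ht
  -- powers of `x`
  set w : ℝ := x ^ (73 / 80 : ℝ) with hw
  have hw1 : 1 ≤ w := Real.one_le_rpow hx1 (by norm_num)
  have hpw : ∀ a : ℝ, a ≤ 73 / 80 → x ^ a ≤ w := fun a ha =>
    Real.rpow_le_rpow_of_exponent_le hx1 ha
  have hlogx40 : Real.log x ≤ 40 * x ^ (1 / 40 : ℝ) := by
    have := Real.log_le_rpow_div hx0.le (show (0 : ℝ) < 1 / 40 by norm_num)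
    linarith
  have hRw : x ^ (1 / 16 : ℝ) * w / 40 ≤ R := by
    rw [hR, le_div_iff₀ hlogx0]
    have e6 : x ^ (1 / 16 : ℝ) * w * x ^ (1 / 40 : ℝ) = x := by
      rw [hw, ← Real.rpow_add hx0, ← Real.rpow_add hx0]
      norm_num
    have e7 : 0 ≤ x ^ (1 / 16 : ℝ) * w / 40 := by positivity
    calc x ^ (1 / 16 : ℝ) * w / 40 * Real.log x
        ≤ x ^ (1 / 16 : ℝ) * w / 40 * (40 * x ^ (1 / 40 : ℝ)) := mul_le_mul_of_nonneg_left hlogx40 e7
      _ = x ^ (1 / 16 : ℝ) * w * x ^ (1 / 40 : ℝ) := by ring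
      _ = x := e6
  have hC₂w : C₂ * w ≤ κ / 80 * R := by
    have e1 : 3200 * C₂ ≤ x ^ (1 / 16 : ℝ) * κ := by rwa [div_le_iff₀ hκ] at hXx1
    have e2 : κ / 80 * (x ^ (1 / 16 : ℝ) * w / 40) ≤ κ / 80 * R :=
      mul_le_mul_of_nonneg_left hRw (by positivity)
    have e3 : C₂ * w ≤ κ / 80 * (x ^ (1 / 16 : ℝ) * w / 40) := by
      have := mul_le_mul_of_nonneg_right e1 (by positivity : 0 ≤ w / 3200)
      calc C₂ * w = 3200 * C₂ * (w / 3200) := by ring
        _ ≤ x ^ (1 / 16 : ℝ) * κ * (w / 3200) := this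
        _ = _ := by ring
    exact e3.trans e2
  have hlog2 : Real.log 2 ≤ c₁ * R := by
    have e1 : 40 * Real.log 2 ≤ x ^ (1 / 16 : ℝ) * c₁ := by rwa [div_le_iff₀ hc₁0] at hXx2
    have e2 : x ^ (1 / 16 : ℝ) ≤ 40 * R := by
      have : x ^ (1 / 16 : ℝ) * 1 ≤ x ^ (1 / 16 : ℝ) * w :=
        mul_le_mul_of_nonneg_left hw1 (by positivity)
      linarith
    have e3 : x ^ (1 / 16 : ℝ) * c₁ ≤ 40 * R * c₁ := mul_le_mul_of_nonneg_right e2 hc₁0.le
    linarith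
  -- logarithm of `L`
  have hLlog : Real.log L ≤ 32 * x ^ (13 / 16 : ℝ) := by
    have h1 : Real.log ((y : ℝ) + 1) ≤ 32 * (y : ℝ) ^ (1 / 16 : ℝ) := by
      have e1 : Real.log ((y : ℝ) + 1) ≤ Real.log ((y : ℝ) ^ (2 : ℕ)) :=
        Real.log_le_log (by linarith) (by nlinarith)
      rw [Real.log_pow] at e1
      push_cast at e1
      have := Real.log_le_rpow_div hy0.le (show (0 : ℝ) < 1 / 16 by norm_num)
      linarith
    have e1 := Real.log_le_log hLR hL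
    rw [Real.log_pow] at e1
    have e2 : ((⌊(y : ℝ) ^ (3 / 4 : ℝ)⌋₊ : ℕ) : ℝ) ≤ (y : ℝ) ^ (3 / 4 : ℝ) :=
      Nat.floor_le (Real.rpow_nonneg hy0.le _)
    have e3 : 0 ≤ Real.log ((y : ℝ) + 1) := Real.log_nonneg (by linarith)
    have e4 : (y : ℝ) ^ (3 / 4 : ℝ) * (32 * (y : ℝ) ^ (1 / 16 : ℝ)) = 32 * (y : ℝ) ^ (13 / 16 : ℝ) := by
      have : (y : ℝ) ^ (3 / 4 : ℝ) * (y : ℝ) ^ (1 / 16 : ℝ) = (y : ℝ) ^ (13 / 16 : ℝ) := by
        rw [← Real.rpow_add hy0]; norm_num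
      rw [← this]; ring
    calc Real.log L ≤ _ := e1
      _ ≤ (y : ℝ) ^ (3 / 4 : ℝ) * Real.log ((y : ℝ) + 1) := mul_le_mul_of_nonneg_right e2 e3
      _ ≤ (y : ℝ) ^ (3 / 4 : ℝ) * (32 * (y : ℝ) ^ (1 / 16 : ℝ)) :=
          mul_le_mul_of_nonneg_left h1 (Real.rpow_nonneg hy0.le _)
      _ = 32 * (y : ℝ) ^ (13 / 16 : ℝ) := e4
      _ ≤ 32 * x ^ (13 / 16 : ℝ) := by
          apply mul_le_mul_of_nonneg_left _ (by norm_num)
          exact Real.rpow_le_rpow hy0.le hyu (by norm_num)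
  -- the logarithm of the left side
  have hk0 : (0 : ℝ) ≤ k := Nat.cast_nonneg _
  have hx10 : 0 ≤ x ^ (1 / 10 : ℝ) := Real.rpow_nonneg hx0.le _
  have t1 : ((3 * k : ℕ) : ℝ) * Real.log ((m * L : ℕ) : ℝ) ≤ (3 * Real.log m + 96) * w := by
    have eL : Real.log ((m * L : ℕ) : ℝ) = Real.log m + Real.log L := by
      rw [Nat.cast_mul, Real.log_mul (by positivity) (by positivity)]
    rw [eL]
    push_cast
    have e1 : (k : ℝ) * Real.log m ≤ w * Real.log m :=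
      mul_le_mul_of_nonneg_right (hk.trans (hpw _ (by norm_num))) hlogm
    have e2 : (k : ℝ) * Real.log L ≤ 32 * w := by
      calc (k : ℝ) * Real.log L ≤ k * (32 * x ^ (13 / 16 : ℝ)) :=
            mul_le_mul_of_nonneg_left hLlog hk0
        _ ≤ x ^ (1 / 10 : ℝ) * (32 * x ^ (13 / 16 : ℝ)) :=
            mul_le_mul_of_nonneg_right hk (by positivity)
        _ = 32 * (x ^ (1 / 10 : ℝ) * x ^ (13 / 16 : ℝ)) := by ring
        _ = 32 * w := by
            rw [hw, ← Real.rpow_add hx0]; norm_num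
    nlinarith
  have t2 : Real.log (2 * ((K : ℝ) ^ m) ^ K) ≤ (1 + m) * w := by
    rw [Real.log_mul (by norm_num) (by positivity), Real.log_pow, Real.log_pow]
    have e1 : Real.log K ≤ K := by
      have := Real.log_le_sub_one_of_pos (show (0 : ℝ) < K by linarith)
      linarith
    have e2 : (K : ℝ) * Real.log K ≤ w := by
      calc (K : ℝ) * Real.log K ≤ K * K := mul_le_mul_of_nonneg_left e1 (by linarith)
        _ ≤ x ^ (1 / 10 : ℝ) * x ^ (1 / 10 : ℝ) := mul_le_mul hK hK (by linarith) hx10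
        _ = x ^ (1 / 5 : ℝ) := by rw [← Real.rpow_add hx0]; norm_num
        _ ≤ w := hpw _ (by norm_num)
    have e3 : Real.log 2 ≤ 1 := by have := Real.log_two_lt_d9; linarith
    have e4 : (K : ℝ) * (m * Real.log K) = m * (K * Real.log K) := by ring
    rw [e4]
    have e5 : (m : ℝ) * (K * Real.log K) ≤ m * w := mul_le_mul_of_nonneg_left e2 (by linarith)
    nlinarith
  have t3 : Real.log (C₁ ^ k) ≤ Real.log C₁ * w := by
    rw [Real.log_pow, mul_comm]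
    exact mul_le_mul_of_nonneg_left (hk.trans (hpw _ (by norm_num))) hlogC
  have t4 : Real.log ((13 / 16 : ℝ) ^ t) ≤ -(κ / 40 * R) + w := by
    rw [Real.log_pow]
    have e1 : (t : ℝ) * Real.log (13 / 16) = -(c * t) := by rw [hc]; ring
    rw [e1]
    have e2 : c * (κ * (R / 4)) ≤ c * ((t : ℝ) + K) := mul_le_mul_of_nonneg_left htl (by linarith)
    have e3 : (1 / 10) * (κ * (R / 4)) ≤ c * (κ * (R / 4)) :=
      mul_le_mul_of_nonneg_right hc0 (by positivity)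
    have e4 : c * K ≤ w := by
      calc c * K ≤ 1 * K := mul_le_mul_of_nonneg_right hc1 (by linarith)
        _ = K := one_mul _
        _ ≤ w := hK.trans (hpw _ (by norm_num))
    linarith
  have hA0 : (0 : ℝ) < ((m * L : ℕ) : ℝ) ^ (3 * k) := by
    apply pow_pos
    have : 0 < m * L := Nat.mul_pos (by omega) hL0
    exact_mod_cast this
  have hlog : Real.log (((m * L : ℕ) : ℝ) ^ (3 * k) * (2 * ((K : ℝ) ^ m) ^ K) * C₁ ^ k *
      (13 / 16) ^ t) ≤ -(2 * c₁) * R := by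
    rw [Real.log_mul (by positivity) (by positivity), Real.log_mul (by positivity) (by positivity),
      Real.log_mul hA0.ne' (by positivity), Real.log_pow]
    have e1 : c₁ ≤ κ / 160 := min_le_left _ _
    have e2 : (2 * c₁) * R ≤ κ / 80 * R := mul_le_mul_of_nonneg_right (by linarith) hR0.le
    have e3 : C₂ * w = (3 * Real.log m + 96) * w + (1 + m) * w + Real.log C₁ * w + w := by
      rw [hC₂]; ring
    linarith
  have hpos : 0 < ((m * L : ℕ) : ℝ) ^ (3 * k) * (2 * ((K : ℝ) ^ m) ^ K) * C₁ ^ k *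
      (13 / 16) ^ t := by positivity
  have h1 : ((m * L : ℕ) : ℝ) ^ (3 * k) * (2 * ((K : ℝ) ^ m) ^ K) * C₁ ^ k *
      (13 / 16) ^ t ≤ Real.exp (-(2 * c₁) * R) := (Real.log_le_iff_le_exp hpos).1 hlog
  refine h1.trans ?_
  have h2 : Real.exp (-(2 * c₁) * R) = Real.exp (-c₁ * R) * Real.exp (-(c₁ * R)) := by
    rw [← Real.exp_add]; congr 1; ring
  rw [h2]
  have h3 : Real.exp (-(c₁ * R)) ≤ 1 / 2 := by
    have : Real.exp (-(c₁ * R)) ≤ Real.exp (-Real.log 2) := Real.exp_le_exp.2 (by linarith)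
    rw [Real.exp_neg (Real.log 2), Real.exp_log (by norm_num)] at this
    linarith
  have h4 : 0 < Real.exp (-c₁ * R) := Real.exp_pos _
  calc Real.exp (-c₁ * R) * Real.exp (-(c₁ * R)) ≤ Real.exp (-c₁ * R) * (1 / 2) :=
        mul_le_mul_of_nonneg_left h3 h4.le
    _ = _ := by ring

end Pool.Agent.TH193.RS
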