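import Pool.Agent.TH193.RS.Loc
import Pool.Agent.TH193.RS.Desc
import Pool.Agent.TH193.RS.Cnt

/-!
The parameters (exponents modulo `L`, sign, coefficient) and the residue classes of a tuple of primes
which is not good.
-/

set_option autoImplicit false

namespace Pool.Agent.TH193.RS

open Finset

theorem repc {k K : ℕ} (p : Fin k → ℕ) : ∀ c : ℕ, 0 < c → SM K p c →
    ∃ (e : ℕ) (γ : Fin k → ℕ), c = e * ∏ i, p i ^ γ i ∧ 0 < e ∧
      (∀ r : ℕ, r.Prime → r ∣ e → r ≤ K) ∧ ∀ i, γ i ≠ 0 → p i ∣ c := by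
  intro c
  induction c using Nat.strong_induction_on with
  | _ c ih =>
    intro hc hs
    rcases Nat.lt_or_ge 1 c with h1 | h1
    · obtain ⟨r, hr, c', hc'⟩ := Nat.exists_prime_and_dvd (by omega : c ≠ 1)
      have hc'0 : 0 < c' := by
        rcases Nat.eq_zero_or_pos c' with h | h
        · rw [h, mul_zero] at hc'; omega
        · exact h
      have hlt : c' < c := by
        rw [hc']
        have := hr.two_le
        nlinarith
      obtain ⟨e, γ, h2, h3, h4, h5⟩ := ih c' hlt hc'0 (fun q hq hqd => hs q hq (by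
        rw [hc']; exact Dvd.dvd.mul_left hqd r))
      rcases hs r hr (by rw [hc']; exact dvd_mul_right r c') with h | ⟨i, hi⟩
      · refine ⟨r * e, γ, by rw [hc', h2]; ring, Nat.mul_pos hr.pos h3, ?_, ?_⟩
        · intro q hq hqd
          rcases (Nat.Prime.dvd_mul hq).1 hqd with h6 | h6
          · rw [(Nat.prime_dvd_prime_iff_eq hq hr).1 h6]; exact h
          · exact h4 q hq h6
        · intro j hj
          rw [hc']; exact Dvd.dvd.mul_left (h5 j hj) r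
      · refine ⟨e, γ + Pi.single i 1, ?_, h3, h4, ?_⟩
        · have e1 : ∏ j, p j ^ ((γ + Pi.single i 1 : Fin k → ℕ) j) = (∏ j, p j ^ γ j) * r := by
            simp only [Pi.add_apply, pow_add, Finset.prod_mul_distrib]
            congr 1
            rw [Finset.prod_eq_single i]
            · simp [hi]
            · intro j _ hj
              rw [Pi.single_eq_of_ne hj, pow_zero]
            · intro h; exact absurd (Finset.mem_univ _) h
          rw [e1, hc', h2]; ring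
        · intro j hj
          by_cases hji : j = i
          · rw [hji, ← hi, hc']; exact dvd_mul_right r c'
          · have : γ j ≠ 0 := by
              intro h0
              apply hj
              simp [h0, Pi.single_eq_of_ne hji]
            rw [hc']; exact Dvd.dvd.mul_left (h5 j this) r
    · have : c = 1 := by omega
      refine ⟨1, 0, by simp [this], one_pos, ?_, ?_⟩
      · intro r hr hd
        exact absurd (Nat.dvd_one.1 hd) hr.ne_one
      · intro i hi; exact absurd rfl hi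

theorem rep {k : ℕ} (p : Fin k → ℕ) (a : ℕ) (ha : 0 < a) (hs : Supp p a) :
    ∃ α : Fin k → ℕ, a = ∏ i, p i ^ α i ∧ ∀ i, α i ≠ 0 → p i ∣ a := by
  obtain ⟨e, γ, h1, h2, h3, h4⟩ := repc (K := 0) p a ha (fun r hr hd => Or.inr (hs r hr hd))
  have he : e = 1 := by
    by_contra hne
    obtain ⟨r, hr, hd⟩ := Nat.exists_prime_and_dvd hne
    have := h3 r hr hd
    have := hr.pos
    omega
  exact ⟨γ, by rw [h1, he, one_mul], h4⟩

theorem smooth_red {K m e : ℕ} (hK : 1 ≤ K) (hm : 0 < m) (he : 0 < e)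
    (hs : ∀ r : ℕ, r.Prime → r ∣ e → r ≤ K) :
    ∃ c d : ℕ, e = c * d ^ m ∧ 0 < c ∧ c ≤ (K ^ m) ^ K ∧ (∀ r : ℕ, r.Prime → r ∣ c → r ≤ K) := by
  refine ⟨∏ r ∈ e.primeFactors, r ^ (e.factorization r % m),
    ∏ r ∈ e.primeFactors, r ^ (e.factorization r / m), ?_, ?_, ?_, ?_⟩
  · rw [← Finset.prod_pow, ← Finset.prod_mul_distrib]
    conv_lhs => rw [← Nat.prod_factorization_pow_eq_self he.ne']
    rw [Finsupp.prod, Nat.support_factorization]
    apply Finset.prod_congr rfl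
    intro r _
    rw [← pow_mul, ← pow_add]
    congr 1
    have := Nat.mod_add_div (e.factorization r) m
    rw [mul_comm m] at this
    exact this.symm
  · apply Finset.prod_pos
    intro r hr
    exact pow_pos (Nat.prime_of_mem_primeFactors hr).pos _
  · calc ∏ r ∈ e.primeFactors, r ^ (e.factorization r % m)
        ≤ ∏ r ∈ e.primeFactors, K ^ m := by
          apply Finset.prod_le_prod'
          intro r hr
          calc r ^ (e.factorization r % m) ≤ K ^ (e.factorization r % m) :=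
                Nat.pow_le_pow_left (hs r (Nat.prime_of_mem_primeFactors hr)
                  (Nat.dvd_of_mem_primeFactors hr)) _
            _ ≤ K ^ m := Nat.pow_le_pow_right hK (Nat.mod_lt _ hm).le
      _ = (K ^ m) ^ e.primeFactors.card := by rw [Finset.prod_const]
      _ ≤ (K ^ m) ^ K := by
          apply Nat.pow_le_pow_right (Nat.pow_pos hK)
          calc e.primeFactors.card ≤ (Icc 1 K).card := by
                apply Finset.card_le_card
                intro r hr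
                rw [mem_Icc]
                exact ⟨(Nat.prime_of_mem_primeFactors hr).one_lt.le,
                  hs r (Nat.prime_of_mem_primeFactors hr) (Nat.dvd_of_mem_primeFactors hr)⟩
            _ = K := by simp
  · intro r hr hd
    rw [hr.prime.dvd_finsetProd_iff] at hd
    obtain ⟨q, hq, hd⟩ := hd
    have h1 : r = q := (Nat.prime_dvd_prime_iff_eq hr (Nat.prime_of_mem_primeFactors hq)).1
      (hr.dvd_of_dvd_pow hd)
    rw [h1]
    exact hs q (Nat.prime_of_mem_primeFactors hq) (Nat.dvd_of_mem_primeFactors hq)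

theorem pow_mod_L {ℓ L : ℕ} (hℓ : ℓ.Prime) (hL : ℓ - 1 ∣ L) (x : ZMod ℓ) (hx : x ≠ 0) (a : ℕ) :
    x ^ a = x ^ (a % L) := by
  have : Fact ℓ.Prime := ⟨hℓ⟩
  have h1 : x ^ (ℓ - 1) = 1 := ZMod.pow_card_sub_one_eq_one hx
  have h2 : x ^ L = 1 := by
    obtain ⟨q, hq⟩ := hL
    rw [hq, pow_mul, h1, one_pow]
  conv_lhs => rw [← Nat.mod_add_div a L, pow_add, pow_mul, h2, one_pow, mul_one]

open Classical in
/-- the residue vectors modulo `ℓ` allowed by the equation -/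
noncomputable def Pz {k : ℕ} (m : ℕ) (α β γ : Fin k → ℕ) (s : ℤ) (c : ℕ) (ℓ : ℕ) :
    Finset (Fin k → ℕ) :=
  (Fintype.piFinset (fun _ : Fin k => (range ℓ).filter (fun v => Nat.Coprime v ℓ))).filter
    (fun v => ∃ t : ZMod ℓ, (∏ i, (v i : ZMod ℓ) ^ α i) + (s : ZMod ℓ) * ∏ i, (v i : ZMod ℓ) ^ β i =
      (c : ZMod ℓ) * (∏ i, (v i : ZMod ℓ) ^ γ i) * t ^ m)

theorem mem_Pz {k m : ℕ} (α β γ : Fin k → ℕ) (s : ℤ) (c ℓ : ℕ) (v : Fin k → ℕ) :
    v ∈ Pz m α β γ s c ℓ ↔ (∀ i, v i < ℓ ∧ Nat.Coprime (v i) ℓ) ∧ ∃ t : ZMod ℓ,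
      (∏ i, (v i : ZMod ℓ) ^ α i) + (s : ZMod ℓ) * ∏ i, (v i : ZMod ℓ) ^ β i =
        (c : ZMod ℓ) * (∏ i, (v i : ZMod ℓ) ^ γ i) * t ^ m := by
  classical
  unfold Pz
  constructor
  · intro h
    have h1 := Finset.mem_filter.1 h
    refine ⟨fun i => ?_, h1.2⟩
    have h2 := Fintype.mem_piFinset.1 h1.1 i
    rw [mem_filter, mem_range] at h2
    exact h2
  · intro h
    refine Finset.mem_filter.2 ⟨Fintype.mem_piFinset.2 fun i => ?_, h.2⟩
    rw [mem_filter, mem_range]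
    exact h.1 i

theorem Pz_card {k m : ℕ} (hm : m.Prime) (α β γ : Fin k → ℕ) (s : ℤ) (hs : s = 1 ∨ s = -1) (c : ℕ)
    (ℓ : ℕ) (hℓ : ℓ.Prime) (hd : m ^ 3 ∣ ℓ - 1) (i₀ : Fin k) (h0 : α i₀ = 0 ∨ β i₀ = 0)
    (hi : ¬ m ∣ α i₀ ∨ ¬ m ∣ β i₀) (hγ : γ i₀ = 0) (hc : ¬ ℓ ∣ c) :
    ((Pz m α β γ s c ℓ).card : ℝ) ≤ 13 / 16 * ((ℓ : ℝ) - 1) ^ k := by
  classical
  have : Fact ℓ.Prime := ⟨hℓ⟩
  have hκ : ((c : ℕ) : ZMod ℓ) ≠ 0 := by
    intro h
    exact hc ((ZMod.natCast_eq_zero_iff c ℓ).1 h)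
  have hs' : (s : ZMod ℓ) = 1 ∨ (s : ZMod ℓ) = -1 := by
    rcases hs with rfl | rfl
    · left; norm_num
    · right; norm_num
  have h1 := local_bound (ℓ := ℓ) hm hd α β γ i₀ h0 hi hγ (s : ZMod ℓ) hs' (c : ZMod ℓ) hκ
  have h2 : (Pz m α β γ s c ℓ).card ≤ (univ.filter (fun g : Fin k → (ZMod ℓ)ˣ => ∃ t : ZMod ℓ,
      ((mon α g : (ZMod ℓ)ˣ) : ZMod ℓ) + (s : ZMod ℓ) * ((mon β g : (ZMod ℓ)ˣ) : ZMod ℓ) =
        (c : ZMod ℓ) * ((mon γ g : (ZMod ℓ)ˣ) : ZMod ℓ) * t ^ m)).card := by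
    apply Finset.card_le_card_of_injOn
      (fun v i => if h : Nat.Coprime (v i) ℓ then ZMod.unitOfCoprime (v i) h else 1)
    · intro v hv
      have hv' := Finset.mem_coe.1 hv
      rw [mem_Pz] at hv'
      obtain ⟨hv1, t, ht⟩ := hv'
      apply Finset.mem_coe.2
      refine Finset.mem_filter.2 ⟨mem_univ _, t, ?_⟩
      have hmon : ∀ e : Fin k → ℕ, ((mon e (fun i => if h : Nat.Coprime (v i) ℓ then
          ZMod.unitOfCoprime (v i) h else 1) : (ZMod ℓ)ˣ) : ZMod ℓ) = ∏ i, (v i : ZMod ℓ) ^ e i := by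
        intro e
        rw [mon, Units.coe_prod]
        apply Finset.prod_congr rfl
        intro i _
        rw [dif_pos (hv1 i).2, Units.val_pow_eq_pow_val, ZMod.coe_unitOfCoprime]
      rw [hmon, hmon, hmon]
      exact ht
    · intro v hv v' hv' he
      have hv1 := Finset.mem_coe.1 hv
      have hv1' := Finset.mem_coe.1 hv'
      rw [mem_Pz] at hv1 hv1'
      funext i
      have h3 := congrFun he i
      have h4 := hv1.1 i
      have h4' := hv1'.1 i
      have h3' : ZMod.unitOfCoprime (v i) h4.2 = ZMod.unitOfCoprime (v' i) h4'.2 := by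
        simpa only [dif_pos h4.2, dif_pos h4'.2] using h3
      have h5 := congrArg (fun u : (ZMod ℓ)ˣ => (u : ZMod ℓ)) h3'
      simp only [ZMod.coe_unitOfCoprime] at h5
      rw [ZMod.natCast_eq_natCast_iff'] at h5
      rwa [Nat.mod_eq_of_lt h4.1, Nat.mod_eq_of_lt h4'.1] at h5
  have h3 : 16 * (Pz m α β γ s c ℓ).card ≤ 13 * (ℓ - 1) ^ k :=
    (Nat.mul_le_mul_left 16 h2).trans h1
  have h4 : (16 : ℝ) * ((Pz m α β γ s c ℓ).card : ℝ) ≤ 13 * ((ℓ : ℝ) - 1) ^ k := by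
    have h5 : ((ℓ - 1 : ℕ) : ℝ) = (ℓ : ℝ) - 1 := by
      rw [Nat.cast_sub hℓ.one_lt.le, Nat.cast_one]
    rw [← h5]
    exact_mod_cast h3
  linarith

/-- the index set of the parameters -/
abbrev Idx (k : ℕ) : Type := ((Fin k → ℕ) × (Fin k → ℕ) × (Fin k → ℕ)) × ℤ × ℕ

open Classical in
/-- the parameters -/
noncomputable def Params (k K m L : ℕ) : Finset (Idx k) :=
  (((Fintype.piFinset (fun _ : Fin k => range L)) ×ˢ (Fintype.piFinset (fun _ : Fin k => range L)) ×ˢ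
    (Fintype.piFinset (fun _ : Fin k => range L))) ×ˢ (({1, -1} : Finset ℤ) ×ˢ
      Icc 1 ((K ^ m) ^ K))).filter (fun x =>
      (∃ i₀, (x.1.1 i₀ = 0 ∨ x.1.2.1 i₀ = 0) ∧ (¬ m ∣ x.1.1 i₀ ∨ ¬ m ∣ x.1.2.1 i₀) ∧
        x.1.2.2 i₀ = 0) ∧ ∀ r : ℕ, r.Prime → r ∣ x.2.2 → r ≤ K)

theorem Params_card (k K m L : ℕ) :
    ((Params k K m L).card : ℝ) ≤ (L : ℝ) ^ (3 * k) * (2 * ((K : ℝ) ^ m) ^ K) := by
  classical
  have h1 : (Params k K m L).card ≤ ((L ^ k) * ((L ^ k) * (L ^ k))) * (2 * (K ^ m) ^ K) := by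
    unfold Params
    refine (Finset.card_filter_le _ _).trans ?_
    rw [Finset.card_product, Finset.card_product, Finset.card_product, Finset.card_product,
      Fintype.card_piFinset, Nat.card_Icc]
    simp
  have h2 : ((Params k K m L).card : ℝ) ≤
      (((L : ℝ) ^ k) * (((L : ℝ) ^ k) * ((L : ℝ) ^ k))) * (2 * ((K : ℝ) ^ m) ^ K) := by
    exact_mod_cast h1
  refine h2.trans (le_of_eq ?_)
  ring

theorem residues {k K m L : ℕ} (hm : m.Prime) (hK : 1 ≤ K) (hmL : m ∣ L) (hL : 0 < L)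
    (T : Finset ℕ) (hT : ∀ ℓ ∈ T, ℓ.Prime ∧ ℓ - 1 ∣ L) (p : Fin k → ℕ) (hp : ∀ i, (p i).Prime)
    (hpT : ∀ i, p i ∉ T) (hG : ¬ Good K m p) :
    ∃ x ∈ Params k K m L, ∀ ℓ ∈ T, (fun i => p i % ℓ) ∈
      Pz m x.1.1 x.1.2.1 x.1.2.2 x.2.1 x.2.2 ℓ := by
  classical
  rw [Good] at hG
  push Not at hG
  obtain ⟨a, b, c, C, ha, hb, hab, hsa, hsb, hc, hsc, hC, heq, hno⟩ := hG
  obtain ⟨α, hα, hα'⟩ := rep p a ha hsa
  obtain ⟨β, hβ, hβ'⟩ := rep p b hb hsb
  obtain ⟨e, γ, hγ, he0, hes, hγ'⟩ := repc p c hc hsc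
  obtain ⟨c', d, hed, hc'0, hc'B, hc's⟩ := smooth_red hK hm.pos he0 hes
  -- the index `i₀`
  have hi₀ : ∃ i₀, ¬ m ∣ α i₀ ∨ ¬ m ∣ β i₀ := by
    by_contra hcon
    push Not at hcon
    have hA : a = (∏ i, p i ^ (α i / m)) ^ m := by
      rw [hα, ← Finset.prod_pow]
      apply Finset.prod_congr rfl
      intro i _
      rw [← pow_mul, Nat.div_mul_cancel (hcon i).1]
    have hB : b = (∏ i, p i ^ (β i / m)) ^ m := by
      rw [hβ, ← Finset.prod_pow]
      apply Finset.prod_congr rfl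
      intro i _
      rw [← pow_mul, Nat.div_mul_cancel (hcon i).2]
    exact hno ⟨_, hA⟩ _ hB
  obtain ⟨i₀, hi₀⟩ := hi₀
  have hdisj : α i₀ = 0 ∨ β i₀ = 0 := by
    by_contra hcon
    push Not at hcon
    exact (hp i₀).one_lt.ne' (Nat.dvd_one.1 (hab ▸ Nat.dvd_gcd (hα' i₀ hcon.1) (hβ' i₀ hcon.2)))
  have hγ0 : γ i₀ = 0 := by
    by_contra hcon
    have h1 := hγ' i₀ hcon
    have h2 : p i₀ ∣ c * C ^ m := h1.mul_right _
    have h3 : p i₀ ∣ a ∨ p i₀ ∣ b := by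
      rcases hi₀ with h | h
      · left; apply hα' i₀; intro h0; rw [h0] at h; exact h (dvd_zero m)
      · right; apply hβ' i₀; intro h0; rw [h0] at h; exact h (dvd_zero m)
    have h4 : p i₀ ∣ a ∧ p i₀ ∣ b := by
      rcases heq with h | h
      · rcases h3 with h3 | h3
        · refine ⟨h3, ?_⟩
          rw [h] at h3
          exact (Nat.dvd_add_left h2).1 h3
        · refine ⟨?_, h3⟩
          rw [h]; exact dvd_add h3 h2
      · rw [← h] at h2
        rcases h3 with h3 | h3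
        · exact ⟨h3, (Nat.dvd_add_right h3).1 h2⟩
        · exact ⟨(Nat.dvd_add_left h3).1 h2, h3⟩
    exact (hp i₀).one_lt.ne' (Nat.dvd_one.1 (hab ▸ Nat.dvd_gcd h4.1 h4.2))
  -- the sign
  obtain ⟨s, hs, hs1, heqs⟩ : ∃ s : ℤ, (s = 1 ∨ s = -1) ∧ s ∈ ({1, -1} : Finset ℤ) ∧
      (a : ℤ) + s * b = ((c * C ^ m : ℕ) : ℤ) := by
    rcases heq with h | h
    · refine ⟨-1, Or.inr rfl, by simp, ?_⟩
      have : (a : ℤ) = b + ((c * C ^ m : ℕ) : ℤ) := by exact_mod_cast h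
      rw [this]; ring
    · refine ⟨1, Or.inl rfl, by simp, ?_⟩
      have : (a : ℤ) + b = ((c * C ^ m : ℕ) : ℤ) := by exact_mod_cast h
      rw [← this]; ring
  have hmodm : ∀ n : ℕ, m ∣ n % L ↔ m ∣ n := fun n => Nat.dvd_mod_iff hmL
  refine ⟨((fun i => α i % L, fun i => β i % L, fun i => γ i % L), s, c'), ?_, ?_⟩
  · rw [Params, mem_filter]
    refine ⟨?_, ⟨i₀, ?_, ?_, ?_⟩, hc's⟩
    · rw [mem_product, mem_product, mem_product, mem_product, mem_Icc, Fintype.mem_piFinset,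
        Fintype.mem_piFinset, Fintype.mem_piFinset]
      exact ⟨⟨fun i => mem_range.2 (Nat.mod_lt _ hL), fun i => mem_range.2 (Nat.mod_lt _ hL),
        fun i => mem_range.2 (Nat.mod_lt _ hL)⟩, hs1, hc'0, hc'B⟩
    · rcases hdisj with h | h
      · left; simp [h]
      · right; simp [h]
    · rcases hi₀ with h | h
      · left; exact fun h' => h ((hmodm _).1 h')
      · right; exact fun h' => h ((hmodm _).1 h')
    · simp [hγ0]
  · intro ℓ hℓ
    obtain ⟨hℓp, hℓL⟩ := hT ℓ hℓ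
    have : Fact ℓ.Prime := ⟨hℓp⟩
    have hpl : ∀ i, ¬ ℓ ∣ p i := by
      intro i h
      have := (Nat.prime_dvd_prime_iff_eq hℓp (hp i)).1 h
      exact hpT i (this ▸ hℓ)
    have hpz : ∀ i, ((p i : ℕ) : ZMod ℓ) ≠ 0 := by
      intro i h
      exact hpl i ((ZMod.natCast_eq_zero_iff (p i) ℓ).1 h)
    have hcast : ∀ i, ((p i % ℓ : ℕ) : ZMod ℓ) = (p i : ZMod ℓ) := fun i => ZMod.natCast_mod (p i) ℓ
    rw [mem_Pz]
    refine ⟨?_, ?_⟩
    · intro i
      refine ⟨Nat.mod_lt _ hℓp.pos, ?_⟩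
      rw [Nat.coprime_comm, Nat.Prime.coprime_iff_not_dvd hℓp]
      intro h
      exact hpl i ((Nat.dvd_mod_iff (dvd_refl ℓ)).1 h)
    · refine ⟨((d * C : ℕ) : ZMod ℓ), ?_⟩
      have hred : ∀ e : Fin k → ℕ, ∏ i, ((p i % ℓ : ℕ) : ZMod ℓ) ^ (e i % L) =
          ((∏ i, p i ^ e i : ℕ) : ZMod ℓ) := by
        intro e
        push_cast
        apply Finset.prod_congr rfl
        intro i _
        rw [hcast, ← pow_mod_L hℓp hℓL _ (hpz i)]
      simp only [hred]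
      rw [← hα, ← hβ]
      have h1 : ((a : ℤ) : ZMod ℓ) + (s : ZMod ℓ) * ((b : ℤ) : ZMod ℓ) =
          (((c * C ^ m : ℕ) : ℤ) : ZMod ℓ) := by
        rw [← heqs]; push_cast; ring
      push_cast at h1
      rw [h1, hγ, hed]
      push_cast
      ring

end Pool.Agent.TH193.RS
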