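import Pool.Agent.H901R3.MS.P_SPL
import Pool.Agent.H901R3.MS.P_SPQ
import Pool.Agent.H901R3.MS.P_SPU
import Pool.Agent.H901R3.MS.P_SPX
import Pool.Agent.H901R3.MS.P_LY

/-!
A positive proportion of the primes `p ≡ 1 (mod Q)`, `p ≤ y`, have `p - 1` free of primes larger than
`y ^ (3/4)`. Adapted from project MS of helper901 (`p + 1` there).
-/

set_option autoImplicit false

namespace Pool.Agent.TH193.RS

namespace Sp

open Finset Pool.Agent.H442R2.KF Pool.Agent.H901R3.MS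

theorem count_eq (Q q y : ℕ) (hq : q.Prime) (hQq : Q < q) (hQ : 1 ≤ Q) :
    (((Icc 1 y).filter (fun p : ℕ => p.Prime ∧ p % Q = 1 % Q)).filter
      (fun p => q ∣ p - 1)).card = piAP y (q * Q) 1 := by
  unfold piAP
  congr 1
  rw [filter_filter]
  apply filter_congr
  intro p hp
  rw [mem_Icc] at hp
  have hco : Nat.Coprime q Q := by
    rw [Nat.Prime.coprime_iff_not_dvd hq]
    intro hdv
    exact absurd (Nat.le_of_dvd (by omega) hdv) (by omega)
  have key : q ∣ p - 1 ↔ p ≡ 1 [MOD q] := by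
    rw [Nat.ModEq.comm, Nat.modEq_iff_dvd' hp.1]
  rw [← Nat.modEq_and_modEq_iff_modEq_mul hco]
  constructor
  · rintro ⟨⟨h1, h2⟩, h3⟩
    exact ⟨h1, key.1 h3, h2⟩
  · rintro ⟨h1, h2, h3⟩
    exact ⟨⟨h1, h3⟩, key.2 h2⟩

end Sp

open Finset Pool.Agent.H442R2.KF Pool.Agent.H901R3.MS Pool.Agent.H901R3.MS.W_SPL Sp in
theorem spl (Q : ℕ) (hQ : 1 ≤ Q) : ∃ C : ℝ, ∀ y : ℕ, 3 ≤ y →
  (1 / (Nat.totient Q : ℝ)) * (Nat.primeCounting y : ℝ) * (2 / 5 * Real.log y - C) -
      C * (y / (Real.log y) ^ 2) ≤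
    ∑ p ∈ (Finset.Icc 1 y).filter (fun p : ℕ => p.Prime ∧ p % Q = 1 % Q),
      ∑ q ∈ (Finset.Icc 1 ⌊(y : ℝ) ^ (1 / 2 : ℝ)⌋₊).filter (fun q : ℕ => q.Prime ∧ q ∣ p - 1),
        Real.log q := by
  obtain ⟨C1, hC1, hbv⟩ := bv (9 / 20) (by norm_num) 3
  obtain ⟨C2, hC2⟩ := Pool.Agent.Helper256.KM.mertens_log
  have hC2' : 0 ≤ C2 := (abs_nonneg _).trans (hC2 1 le_rfl)
  set C3 : ℝ := ∑ q ∈ (Icc 1 Q).filter Nat.Prime, Real.log q / q with hC3
  have hC3' : 0 ≤ C3 := sum_nonneg fun q hq => by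
    rw [mem_filter, mem_Icc] at hq
    exact div_nonneg (Real.log_nonneg (by exact_mod_cast hq.1.1)) (Nat.cast_nonneg _)
  have hQ' : (1:ℝ) ≤ Q := by exact_mod_cast hQ
  have hlQ : 0 ≤ Real.log (4 * Q) := Real.log_nonneg (by linarith)
  refine ⟨C1 + C2 + C3 + Real.log (4 * Q), fun y hy => ?_⟩
  set C : ℝ := C1 + C2 + C3 + Real.log (4 * Q) with hC
  have hy3 : (3:ℝ) ≤ y := by exact_mod_cast hy
  have hy0 : (0:ℝ) < y := by linarith
  have hlog1 : 1 ≤ Real.log y := TaskBV.log_ge_one hy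
  have hphi : (0:ℝ) < Nat.totient Q := by exact_mod_cast Nat.totient_pos.2 (by omega)
  set D : ℕ := ⌊(y : ℝ) ^ (9 / 20 : ℝ)⌋₊ with hD
  set Z : ℕ := D / Q with hZ
  have hDle : (D : ℝ) ≤ (y:ℝ) ^ (9 / 20 : ℝ) := Nat.floor_le (Real.rpow_nonneg hy0.le _)
  have hDlt : (y:ℝ) ^ (9 / 20 : ℝ) < D + 1 := Nat.lt_floor_add_one _
  have hy1 : (1:ℝ) ≤ (y:ℝ) ^ (9 / 20 : ℝ) := Real.one_le_rpow (by linarith) (by norm_num)
  have hD1 : 1 ≤ D := Nat.le_floor (by simpa using hy1)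
  have hDH : D ≤ ⌊(y : ℝ) ^ (1 / 2 : ℝ)⌋₊ := by
    apply Nat.floor_le_floor
    exact Real.rpow_le_rpow_of_exponent_le (by linarith) (by norm_num)
  have hlogD : Real.log ((y:ℝ) ^ (9 / 20 : ℝ)) = 9 / 20 * Real.log y := Real.log_rpow hy0 _
  set QQ : Finset ℕ := (Icc 1 Z).filter (fun q : ℕ => q.Prime ∧ Q < q) with hQQ
  set PP : Finset ℕ := (Icc 1 y).filter (fun p : ℕ => p.Prime ∧ p % Q = 1 % Q) with hPP
  have hlogq : ∀ q : ℕ, 1 ≤ q → 0 ≤ Real.log q := fun q hq =>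
    Real.log_nonneg (by exact_mod_cast hq)
  have hpi : (0:ℝ) ≤ piN y := Nat.cast_nonneg _
  have hnn : (0:ℝ) ≤ ∑ p ∈ PP,
      ∑ q ∈ (Finset.Icc 1 ⌊(y : ℝ) ^ (1 / 2 : ℝ)⌋₊).filter (fun q : ℕ => q.Prime ∧ q ∣ p - 1),
        Real.log q := by
    refine sum_nonneg fun p _ => sum_nonneg fun q hq => ?_
    rw [mem_filter, mem_Icc] at hq
    exact hlogq q hq.1.1
  rw [piN_eq]
  have hyl : 0 ≤ (y:ℝ) / Real.log y ^ 2 := by positivity
  have hC0 : 0 ≤ C := by rw [hC]; linarith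
  by_cases hZ1 : 1 ≤ Z
  · -- main case
    have hZQ : Z * Q ≤ D := Nat.div_mul_le_self D Q
    have hZD : Z ≤ D := Nat.div_le_self D Q
    have hstep1 : ∑ q ∈ QQ, Real.log q * (piAP y (q * Q) 1 : ℝ) ≤ ∑ p ∈ PP,
      ∑ q ∈ (Finset.Icc 1 ⌊(y : ℝ) ^ (1 / 2 : ℝ)⌋₊).filter (fun q : ℕ => q.Prime ∧ q ∣ p - 1),
        Real.log q := by
      have e1 : ∑ q ∈ QQ, Real.log q * (piAP y (q * Q) 1 : ℝ) =
          ∑ q ∈ QQ, ∑ p ∈ PP, if q ∣ p - 1 then Real.log q else 0 := by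
        refine sum_congr rfl fun q hq => ?_
        rw [hQQ, mem_filter, mem_Icc] at hq
        rw [← Sp.count_eq Q q y hq.2.1 hq.2.2 hQ]
        rw [← sum_filter, sum_const, nsmul_eq_mul, mul_comm]
      rw [e1, sum_comm]
      refine sum_le_sum fun p _ => ?_
      rw [← sum_filter]
      refine sum_le_sum_of_subset_of_nonneg ?_ ?_
      · intro q hq
        rw [mem_filter, hQQ, mem_filter, mem_Icc] at hq
        rw [mem_filter, mem_Icc]
        exact ⟨⟨hq.1.1.1, by omega⟩, hq.1.2.1, hq.2⟩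
      · intro q hq _
        rw [mem_filter, mem_Icc] at hq
        exact hlogq q hq.1.1
    have hstep2 : ∑ q ∈ QQ, (Real.log q * ((piN y : ℝ) / (Nat.totient Q * q)) -
        Real.log y * |Er y (q * Q) 1|) ≤
        ∑ q ∈ QQ, Real.log q * (piAP y (q * Q) 1 : ℝ) := by
      refine sum_le_sum fun q hq => ?_
      rw [hQQ, mem_filter, mem_Icc] at hq
      obtain ⟨⟨hq1, hqZ⟩, hqp, hQq⟩ := hq
      have hco : Nat.Coprime q Q := by
        rw [Nat.Prime.coprime_iff_not_dvd hqp]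
        intro hdv
        exact absurd (Nat.le_of_dvd (by omega) hdv) (by omega)
      have htot : (Nat.totient (q * Q) : ℝ) ≤ Nat.totient Q * q := by
        rw [Nat.totient_mul hco, Nat.totient_prime hqp]
        push_cast
        have : ((q - 1 : ℕ) : ℝ) ≤ q := by exact_mod_cast Nat.sub_le q 1
        nlinarith
      have htot0 : (0:ℝ) < Nat.totient (q * Q) := by
        exact_mod_cast Nat.totient_pos.2 (Nat.mul_pos (by omega) (by omega))
      have h1 : (piN y : ℝ) / (Nat.totient Q * q) ≤ (piN y : ℝ) / Nat.totient (q * Q) :=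
        div_le_div_of_nonneg_left hpi htot0 htot
      have h2 : (piN y : ℝ) / Nat.totient (q * Q) - |Er y (q * Q) 1| ≤
          piAP y (q * Q) 1 := by
        have := neg_abs_le (Er y (q * Q) 1)
        have e : Er y (q * Q) 1 = (piAP y (q * Q) 1 : ℝ) -
          (piN y : ℝ) / Nat.totient (q * Q) := rfl
        rw [e] at this ⊢
        linarith
      have hlq := hlogq q hq1
      have hlqy : Real.log q ≤ Real.log y := by
        apply Real.log_le_log (by exact_mod_cast hq1)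
        have h3 : (q:ℝ) ≤ D := by exact_mod_cast (hqZ.trans hZD)
        have h4 : (y:ℝ) ^ (9 / 20 : ℝ) ≤ y := by
          conv_rhs => rw [← Real.rpow_one (y:ℝ)]
          exact Real.rpow_le_rpow_of_exponent_le (by linarith) (by norm_num)
        linarith
      have h5 := mul_le_mul_of_nonneg_left h1 hlq
      have h6 := mul_le_mul_of_nonneg_left h2 hlq
      have h7 := mul_le_mul_of_nonneg_right hlqy (abs_nonneg (Er y (q * Q) 1))
      linarith
    have hstep3 : ∑ q ∈ QQ, |Er y (q * Q) 1| ≤ C1 * (y / Real.log y ^ 3) := by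
      refine le_trans ?_ (hbv y hy (fun _ => 1) (fun d hd => Nat.coprime_one_left d))
      have hinj : Set.InjOn (fun q : ℕ => q * Q) (QQ : Set ℕ) := by
        intro q _ q' _ h
        exact Nat.eq_of_mul_eq_mul_right (by omega) h
      rw [← sum_image (f := fun d => |Er y d 1|) hinj]
      refine sum_le_sum_of_subset_of_nonneg ?_ (fun _ _ _ => abs_nonneg _)
      intro d hd
      rw [mem_image] at hd
      obtain ⟨q, hq, rfl⟩ := hd
      rw [hQQ, mem_filter, mem_Icc] at hq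
      rw [mem_Icc]
      refine ⟨Nat.mul_pos (by omega) (by omega), ?_⟩
      exact (Nat.mul_le_mul_right Q hq.1.2).trans hZQ
    have hstep4 : Real.log Z - C2 - C3 ≤ ∑ q ∈ QQ, Real.log q / q := by
      have h1 := (abs_le.1 (hC2 Z hZ1)).1
      have h2 : ∑ p ∈ (Finset.Icc 1 Z).filter Nat.Prime, Real.log p / p ≤
          ∑ q ∈ QQ, Real.log q / q + C3 := by
        rw [← sum_filter_add_sum_filter_not ((Finset.Icc 1 Z).filter Nat.Prime)
          (fun q => Q < q)]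
        refine add_le_add ?_ ?_
        · rw [filter_filter]
        · rw [hC3]
          refine sum_le_sum_of_subset_of_nonneg ?_ ?_
          · intro q hq
            rw [mem_filter, mem_filter, mem_Icc] at hq
            rw [mem_filter, mem_Icc]
            exact ⟨⟨hq.1.1.1, by omega⟩, hq.1.2⟩
          · intro q hq _
            rw [mem_filter, mem_Icc] at hq
            exact div_nonneg (hlogq q hq.1.1) (Nat.cast_nonneg _)
      linarith
    have hlogZ : 9 / 20 * Real.log y - Real.log (4 * Q) ≤ Real.log Z := by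
      have hZ1' : (1:ℝ) ≤ Z := by exact_mod_cast hZ1
      have hD1' : (1:ℝ) ≤ D := by exact_mod_cast hD1
      have h1 : (D:ℝ) < (Z + 1) * Q := by
        have h2 : D < (Z + 1) * Q := by
          rw [hZ]
          have := Nat.lt_div_mul_add (a := D) (b := Q) (by omega)
          rw [Nat.add_mul, one_mul]
          exact this
        exact_mod_cast h2
      have h2 : (y:ℝ) ^ (9 / 20 : ℝ) ≤ 4 * Q * Z := by nlinarith
      have h3 := Real.log_le_log (by linarith) h2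
      rw [hlogD, Real.log_mul (by positivity) (by positivity)] at h3
      linarith
    -- final computation
    have e2 : ∑ q ∈ QQ, (Real.log q * ((piN y : ℝ) / (Nat.totient Q * q)) -
        Real.log y * |Er y (q * Q) 1|) =
        (1 / (Nat.totient Q : ℝ)) * piN y * ∑ q ∈ QQ, Real.log q / q -
          Real.log y * ∑ q ∈ QQ, |Er y (q * Q) 1| := by
      rw [sum_sub_distrib, ← mul_sum]
      congr 1
      rw [mul_sum]
      refine sum_congr rfl fun q hq => ?_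
      rw [hQQ, mem_filter, mem_Icc] at hq
      have : (q:ℝ) ≠ 0 := by
        have : 1 ≤ q := hq.1.1
        positivity
      field_simp
    rw [e2] at hstep2
    have hA : 0 ≤ (1 / (Nat.totient Q : ℝ)) * piN y := by positivity
    have h8 : (1 / (Nat.totient Q : ℝ)) * piN y * (2 / 5 * Real.log y - C) ≤
        (1 / (Nat.totient Q : ℝ)) * piN y * ∑ q ∈ QQ, Real.log q / q := by
      apply mul_le_mul_of_nonneg_left _ hA
      rw [hC]
      linarith
    have h9 : Real.log y * ∑ q ∈ QQ, |Er y (q * Q) 1| ≤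
        C * (y / Real.log y ^ 2) := by
      have h10 := mul_le_mul_of_nonneg_left hstep3 (by linarith : (0:ℝ) ≤ Real.log y)
      have h11 : Real.log y * (C1 * (y / Real.log y ^ 3)) = C1 * (y / Real.log y ^ 2) := by
        have : Real.log y ≠ 0 := by linarith
        field_simp
      have h12 : C1 * (y / Real.log y ^ 2) ≤ C * (y / Real.log y ^ 2) :=
        mul_le_mul_of_nonneg_right (by rw [hC]; linarith) hyl
      linarith
    linarith
  · -- small case
    have hDQ : D < Q := by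
      by_contra h
      push Not at h
      exact hZ1 ((Nat.one_le_div_iff (by omega)).2 h)
    have h1 : (y:ℝ) ^ (9 / 20 : ℝ) ≤ 4 * Q := by
      have : (D:ℝ) + 1 ≤ Q := by exact_mod_cast hDQ
      linarith
    have h2 := Real.log_le_log (by linarith) h1
    rw [hlogD] at h2
    have h3 : 2 / 5 * Real.log y - C ≤ 0 := by rw [hC]; linarith
    have h4 : (1 / (Nat.totient Q : ℝ)) * piN y * (2 / 5 * Real.log y - C) ≤ 0 :=
      mul_nonpos_of_nonneg_of_nonpos (by positivity) h3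
    have h5 : 0 ≤ C * (y / Real.log y ^ 2) := mul_nonneg hC0 hyl
    linarith

open Classical in
/-- the primes `p ≤ y`, `p ≡ 1 (mod Q)`, with `p - 1` free of primes larger than `y ^ (3/4)` -/
noncomputable def GoodP (Q y : ℕ) : Finset ℕ :=
  (Finset.Icc 1 y).filter (fun p : ℕ => p.Prime ∧ p % Q = 1 % Q ∧
    ∀ q : ℕ, q.Prime → q ∣ p - 1 → q ≤ ⌊(y : ℝ) ^ (3 / 4 : ℝ)⌋₊)

open Finset Pool.Agent.H442R2.KF in
theorem sp (Q : ℕ) (hQ : 1 ≤ Q) : ∃ κ : ℝ, 0 < κ ∧ ∃ Y : ℕ, ∀ y : ℕ, Y ≤ y →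
    κ * (y / Real.log y) ≤ ((GoodP Q y).card : ℝ) := by
  have hSPU := Pool.Agent.H901R3.MS.t_SPU
  obtain ⟨C₁, hC₁⟩ := spl Q hQ
  obtain ⟨C₂, hC₂⟩ := Pool.Agent.H901R3.MS.t_SPQ Q 1 hQ (Nat.coprime_one_left Q)
  set C : ℝ := max (max C₁ C₂) 0 with hC
  have hCC₁ : C₁ ≤ C := le_trans (le_max_left _ _) (le_max_left _ _)
  have hCC₂ : C₂ ≤ C := le_trans (le_max_right _ _) (le_max_left _ _)
  have hC0 : 0 ≤ C := le_max_right _ _
  have hφ : (0 : ℝ) < (Nat.totient Q : ℝ) := by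
    exact_mod_cast Nat.totient_pos.2 hQ
  set φ : ℝ := (Nat.totient Q : ℝ) with hφdef
  refine ⟨1 / (30 * φ), by positivity, ⌈Real.exp (20 * (C + 1) + 120 * C * φ)⌉₊ + 16, ?_⟩
  intro y hy
  have hy16 : 16 ≤ y := by omega
  have hyR : (16 : ℝ) ≤ y := by exact_mod_cast hy16
  have hyexp : Real.exp (20 * (C + 1) + 120 * C * φ) ≤ y := by
    have h1 : ⌈Real.exp (20 * (C + 1) + 120 * C * φ)⌉₊ ≤ y := by omega
    exact (Nat.le_ceil _).trans (by exact_mod_cast h1)
  have hlogge : 20 * (C + 1) + 120 * C * φ ≤ Real.log y := by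
    rw [Real.le_log_iff_exp_le (by linarith)]
    exact hyexp
  have hCφ : 0 ≤ 120 * C * φ := by positivity
  have hlog1 : 1 ≤ Real.log y := by nlinarith
  set ℓ : ℝ := Real.log y with hℓ
  have hℓpos : 0 < ℓ := by linarith
  -- the sets
  set P : Finset ℕ := (Finset.Icc 1 y).filter (fun p : ℕ => p.Prime ∧ p % Q = 1 % Q) with hP
  set z : ℕ := ⌊(y : ℝ) ^ (1 / 2 : ℝ)⌋₊ with hz
  set z' : ℕ := ⌊(y : ℝ) ^ (3 / 4 : ℝ)⌋₊ with hz'
  have hzz' : z ≤ z' := by
    apply Nat.floor_mono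
    exact Real.rpow_le_rpow_of_exponent_le (by linarith) (by norm_num)
  have hlogy1 : Real.log ((y : ℝ) + 1) ≤ ℓ + 1 := by
    have h1 : Real.log ((y : ℝ) + 1) ≤ Real.log (2 * y) :=
      Real.log_le_log (by positivity) (by linarith)
    rw [Real.log_mul (by norm_num) (by positivity)] at h1
    have := Real.log_two_lt_d9
    linarith
  have hsum : ∑ p ∈ P, ∑ q ∈ (Finset.Icc 1 z).filter (fun q : ℕ => q.Prime ∧ q ∣ p - 1), Real.log q ≤
      (P.card : ℝ) * (1 / 4 * ℓ + 1) + ((GoodP Q y).card : ℝ) * (3 / 4 * ℓ) := by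
    classical
    have hsub : GoodP Q y ⊆ P := by
      intro p hp
      simp only [GoodP, Finset.mem_filter] at hp
      simp only [hP, Finset.mem_filter]
      exact ⟨hp.1, hp.2.1, hp.2.2.1⟩
    have hpt : ∀ p ∈ P, ∑ q ∈ (Finset.Icc 1 z).filter (fun q : ℕ => q.Prime ∧ q ∣ p - 1), Real.log q ≤
        (1 / 4 * ℓ + 1) + (if p ∈ GoodP Q y then 3 / 4 * ℓ else 0) := by
      intro p hp
      have hp' := hp
      simp only [hP, Finset.mem_filter, Finset.mem_Icc] at hp'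
      have hp1 : 1 ≤ p - 1 := by have := hp'.2.1.two_le; omega
      have hlogp : Real.log ((p - 1 : ℕ) : ℝ) ≤ ℓ + 1 := by
        have h1 : ((p - 1 : ℕ) : ℝ) ≤ y := by
          have : p - 1 ≤ y := by omega
          exact_mod_cast this
        have h2 : (0 : ℝ) < ((p - 1 : ℕ) : ℝ) := by exact_mod_cast hp1
        have h3 := Real.log_le_log h2 h1
        linarith
      obtain ⟨hU1, hU2⟩ := hSPU (p - 1) z hp1
      split_ifs with hgood
      · linarith
      · have : ∃ q : ℕ, q.Prime ∧ q ∣ p - 1 ∧ z' < q := by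
          by_contra hcon
          push Not at hcon
          apply hgood
          simp only [GoodP, Finset.mem_filter, Finset.mem_Icc]
          exact ⟨hp'.1, hp'.2.1, hp'.2.2, fun q hq hqd => hcon q hq hqd⟩
        obtain ⟨q', hq', hqd, hlt⟩ := this
        have h3 := hU2 q' hq' hqd (lt_of_le_of_lt hzz' hlt)
        have h4 : (y : ℝ) ^ (3 / 4 : ℝ) ≤ q' := by
          have := Nat.lt_of_floor_lt hlt
          exact this.le
        have h5 : 3 / 4 * ℓ ≤ Real.log q' := by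
          have h6 : Real.log ((y : ℝ) ^ (3 / 4 : ℝ)) = 3 / 4 * ℓ := by
            rw [Real.log_rpow (by linarith)]
          rw [← h6]
          exact Real.log_le_log (by positivity) h4
        linarith
    calc ∑ p ∈ P, ∑ q ∈ (Finset.Icc 1 z).filter (fun q : ℕ => q.Prime ∧ q ∣ p - 1), Real.log q
        ≤ ∑ p ∈ P, ((1 / 4 * ℓ + 1) + (if p ∈ GoodP Q y then 3 / 4 * ℓ else 0)) :=
          Finset.sum_le_sum hpt
      _ = (P.card : ℝ) * (1 / 4 * ℓ + 1) + ((GoodP Q y).card : ℝ) * (3 / 4 * ℓ) := by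
          rw [Finset.sum_add_distrib, Finset.sum_const, nsmul_eq_mul, ← Finset.sum_filter]
          congr 1
          rw [Finset.filter_mem_eq_inter, Finset.inter_eq_right.2 hsub, Finset.sum_const,
            nsmul_eq_mul]
  have hlow := hC₁ y (by omega)
  have hN := hC₂ y (by omega)
  have hpi := Pool.Agent.H901R3.MS.W_SPX.pi_lower y hy16
  set π' : ℝ := (Nat.primeCounting y : ℝ) with hπ'
  have hπ0 : 0 ≤ π' := by positivity
  set G : ℝ := ((GoodP Q y).card : ℝ) with hG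
  set N : ℝ := (P.card : ℝ) with hNdef
  have hN0 : 0 ≤ N := by positivity
  have hℓ2 : 0 < ℓ ^ 2 := by positivity
  have hyℓ2 : 0 ≤ (y : ℝ) / ℓ ^ 2 := by positivity
  have hyℓ3 : 0 ≤ (y : ℝ) / ℓ ^ 3 := by positivity
  -- lower bound with C
  have hlow' : (1 / φ) * π' * (2 / 5 * ℓ - C) - C * (y / ℓ ^ 2) ≤
      N * (1 / 4 * ℓ + 1) + G * (3 / 4 * ℓ) := by
    have ha : (1 / φ) * π' * (2 / 5 * ℓ - C) ≤ (1 / φ) * π' * (2 / 5 * ℓ - C₁) :=
      mul_le_mul_of_nonneg_left (by linarith) (by positivity)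
    have hb : C₁ * ((y : ℝ) / ℓ ^ 2) ≤ C * (y / ℓ ^ 2) := mul_le_mul_of_nonneg_right hCC₁ hyℓ2
    linarith [hlow, hsum]
  have hN' : N ≤ (1 / φ) * π' + C * (y / ℓ ^ 3) := by
    have hb : C₂ * ((y : ℝ) / ℓ ^ 3) ≤ C * (y / ℓ ^ 3) := mul_le_mul_of_nonneg_right hCC₂ hyℓ3
    linarith [hN]
  have hN'' : N * (1 / 4 * ℓ + 1) ≤ (1 / φ) * π' * (1 / 4 * ℓ + 1) + 5 / 4 * C * (y / ℓ ^ 2) := by
    have h1 : N * (1 / 4 * ℓ + 1) ≤ ((1 / φ) * π' + C * (y / ℓ ^ 3)) * (1 / 4 * ℓ + 1) :=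
      mul_le_mul_of_nonneg_right hN' (by positivity)
    have h2 : C * ((y : ℝ) / ℓ ^ 3) * (1 / 4 * ℓ + 1) ≤ C * (y / ℓ ^ 3) * (5 / 4 * ℓ) :=
      mul_le_mul_of_nonneg_left (by linarith) (by positivity)
    have h3 : C * ((y : ℝ) / ℓ ^ 3) * (5 / 4 * ℓ) = 5 / 4 * C * (y / ℓ ^ 2) := by
      field_simp
      try ring
    calc N * (1 / 4 * ℓ + 1) ≤ ((1 / φ) * π' + C * (y / ℓ ^ 3)) * (1 / 4 * ℓ + 1) := h1
      _ = (1 / φ) * π' * (1 / 4 * ℓ + 1) + C * (y / ℓ ^ 3) * (1 / 4 * ℓ + 1) := by ring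
      _ ≤ _ := by rw [← h3]; linarith
  -- main lower bound
  have hmain1 : (1 / φ) * π' * (1 / 10 * ℓ) - 3 * C * (y / ℓ ^ 2) ≤ G * (3 / 4 * ℓ) := by
    have h1 : (1 / φ) * π' * (1 / 10 * ℓ) ≤
        (1 / φ) * π' * (2 / 5 * ℓ - C) - (1 / φ) * π' * (1 / 4 * ℓ + 1) := by
      rw [← mul_sub]
      exact mul_le_mul_of_nonneg_left (by nlinarith) (by positivity)
    have h2 : 0 ≤ C * ((y : ℝ) / ℓ ^ 2) := by positivity
    linarith
  have hmain2 : (1 / (20 * φ)) * y ≤ (1 / φ) * π' * (1 / 10 * ℓ) := by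
    have h1 : (1 / φ) * (1 / 2 * (y / ℓ)) * (1 / 10 * ℓ) ≤ (1 / φ) * π' * (1 / 10 * ℓ) := by
      apply mul_le_mul_of_nonneg_right _ (by positivity)
      exact mul_le_mul_of_nonneg_left hpi (by positivity)
    have h2 : (1 / φ) * (1 / 2 * ((y : ℝ) / ℓ)) * (1 / 10 * ℓ) = (1 / (20 * φ)) * y := by
      field_simp; norm_num
    linarith
  have hmain3 : 3 * C * ((y : ℝ) / ℓ ^ 2) ≤ (1 / (40 * φ)) * y := by
    rw [← mul_div_assoc, div_le_iff₀ hℓ2]
    have h1 : 120 * C * φ ≤ ℓ ^ 2 := by nlinarith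
    have h2 : 3 * C = (1 / (40 * φ)) * (120 * C * φ) := by field_simp; ring
    rw [h2]
    have h3 : 0 ≤ 1 / (40 * φ) * (y : ℝ) := by positivity
    nlinarith
  have hmain : (1 / (40 * φ)) * y ≤ G * (3 / 4 * ℓ) := by
    have h1 : (1 / (20 * φ)) * (y : ℝ) = 2 * ((1 / (40 * φ)) * y) := by field_simp; norm_num
    linarith
  have hfin : 1 / (30 * φ) * ((y : ℝ) / ℓ) = (1 / (40 * φ)) * y * (4 / (3 * ℓ)) := by
    field_simp; norm_num
  rw [hfin]
  calc (1 / (40 * φ)) * (y : ℝ) * (4 / (3 * ℓ)) ≤ G * (3 / 4 * ℓ) * (4 / (3 * ℓ)) :=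
        mul_le_mul_of_nonneg_right hmain (by positivity)
    _ = G := by field_simp


end Pool.Agent.TH193.RS
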